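import Mathlib
import Pool.Agent.Lib.TU.RowA
import Pool.Agent.Lib.TU.B1

/-!
# Few polynomial phases of the grid correlate with one block
-/

set_option autoImplicit false
open Finset Polynomial

namespace Pool.Agent.XS

open Pool.Agent.Lib.MP_663568_nt Pool.Agent.Lib.MP_663568_nt.Katai
  Pool.Agent.Lib.MP_663568_nt.Nul

/-- `b_1 h + ⋯ + b_t h ^ t` -/
noncomputable def phs {t : ℕ} (b : Fin t → ℝ) (h : ℕ) : ℝ := ∑ i, b i * (h : ℝ) ^ (i.val + 1)

/-- the point of the grid with numerators `k`. -/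
noncomputable def grp {t : ℕ} (H : ℕ) (k : Fin t → ℕ) : Fin t → ℝ :=
  fun i => (k i : ℝ) / (H : ℝ) ^ (i.val + 1)

/-- the grid -/
def Grid (t H : ℕ) : Finset (Fin t → ℕ) := Fintype.piFinset fun i => range (H ^ (i.val + 1))

/-- the polynomial of the difference of two points -/
noncomputable def dp {t : ℕ} (b b' : Fin t → ℝ) : ℝ[X] := ∑ i, C (b i - b' i) * X ^ (i.val + 1)

lemma dp_eval {t : ℕ} (b b' : Fin t → ℝ) (h : ℕ) : (dp b b').eval (h : ℝ) = phs b h - phs b' h := by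
  unfold dp phs
  rw [eval_finsetSum, ← sum_sub_distrib]
  refine sum_congr rfl fun i _ => ?_
  simp
  ring

lemma dp_deg {t : ℕ} (b b' : Fin t → ℝ) : (dp b b').natDegree ≤ t := by
  unfold dp
  apply natDegree_sum_le_of_forall_le
  intro i _
  refine (natDegree_C_mul_X_pow_le _ _).trans ?_
  have := i.isLt
  omega

lemma dp_coeff {t : ℕ} (b b' : Fin t → ℝ) (i : Fin t) :
    (dp b b').coeff (i.val + 1) = b i - b' i := by
  unfold dp
  rw [finsetSum_coeff, sum_eq_single i]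
  · rw [coeff_C_mul, coeff_X_pow, if_pos rfl, mul_one]
  · intro j _ hj
    rw [coeff_C_mul, coeff_X_pow, if_neg, mul_zero]
    intro h
    apply hj
    apply Fin.ext
    omega
  · intro h
    exact absurd (mem_univ i) h

/-- **Few points of the grid correlate with one block.** -/
theorem few_grid (t : ℕ) (ht : 1 ≤ t) (c : ℝ) (hc : 0 < c) (hc1 : c ≤ 1) :
    ∃ K : ℕ, ∀ (H : ℕ) (a : ℕ → ℂ), 1 ≤ H → (∀ n, ‖a n‖ ≤ 1) →
      ∀ G : Finset (Fin t → ℕ), G ⊆ Grid t H →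
      (∀ k ∈ G, c * H ≤ ‖∑ y ∈ Icc 1 H, a y * ee (phs (grp H k) y)‖) → G.card ≤ K := by
  classical
  obtain ⟨C₀, hC₀, hA⟩ := TU.rowA t ht
  obtain ⟨ρ, hρ⟩ : ∃ ρ : ℝ, ρ = c ^ 2 / 2 := ⟨_, rfl⟩
  have hρ0 : 0 < ρ := by rw [hρ]; positivity
  have hρ2 : ρ ≤ 1 / 2 := by rw [hρ]; nlinarith
  obtain ⟨Q, hQ⟩ : ∃ Q : ℕ, Q = ⌈(1 / ρ) ^ C₀⌉₊ := ⟨_, rfl⟩
  have hQge : (1 / ρ) ^ C₀ ≤ Q := by rw [hQ]; exact Nat.le_ceil _
  have h1ρ : 1 ≤ 1 / ρ := by rw [le_div_iff₀ hρ0]; linarith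
  have hQ1r : (1 : ℝ) ≤ Q := (one_le_pow₀ h1ρ).trans hQge
  have hQ1 : 1 ≤ Q := by exact_mod_cast hQ1r
  -- the boxes for the parameters
  obtain ⟨K₁, hK₁⟩ : ∃ K₁ : ℕ, K₁ = (Q + 1) * ((4 * Q + 1) * (2 * Q + 1)) ^ t := ⟨_, rfl⟩
  obtain ⟨K₂, hK₂⟩ : ∃ K₂ : ℕ, K₂ = ⌈(K₁ : ℝ) / ρ⌉₊ := ⟨_, rfl⟩
  obtain ⟨K₃, hK₃⟩ : ∃ K₃ : ℕ, K₃ = ∏ i : Fin t, Q ^ (i.val + 1) := ⟨_, rfl⟩
  refine ⟨K₂ + K₃, fun H a hH ha G hG hcor => ?_⟩
  have hHr : (0 : ℝ) < H := by exact_mod_cast hH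
  rcases lt_or_ge (H : ℝ) ((1 / ρ) ^ C₀) with hsmall | hbig
  · -- a short block
    have h1 : H ≤ Q := by
      have : (H : ℝ) ≤ Q := hsmall.le.trans hQge
      exact_mod_cast this
    have h2 := card_le_card hG
    have h3 : (Grid t H).card ≤ K₃ := by
      unfold Grid
      rw [Fintype.card_piFinset, hK₃]
      apply prod_le_prod' fun i _ => ?_
      rw [card_range]
      exact Nat.pow_le_pow_left h1 _
    omega
  rcases G.eq_empty_or_nonempty with he | hne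
  · rw [he]; simp
  -- the pigeonhole principle
  obtain ⟨e⟩ : Nonempty (G ≃ Fin G.card) := ⟨G.equivFin⟩
  obtain ⟨ψ, hψ⟩ : ∃ ψ : ℕ → (Fin t → ℕ), ψ = fun n =>
    if h : n < G.card then (e.symm ⟨n, h⟩ : Fin t → ℕ) else 0 := ⟨_, rfl⟩
  have hψG : ∀ n, n < G.card → ψ n ∈ G := by
    intro n hn
    rw [hψ]
    simp only [dif_pos hn]
    exact (e.symm ⟨n, hn⟩).2
  have hψi : ∀ n m, n < G.card → m < G.card → ψ n = ψ m → n = m := by
    intro n m hn hm h
    rw [hψ] at h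
    simp only [dif_pos hn, dif_pos hm] at h
    have h1 := e.symm.injective (Subtype.ext h)
    simpa using h1
  obtain ⟨n₀, hn₀, hpig⟩ := TU.rowB1 H a (range G.card) (fun n y => ee (phs (grp H (ψ n)) y)) c hc
    hc1 ha (fun n y => (norm_ee _).le) (by
      rw [nonempty_range_iff]
      exact hne.card_pos.ne') (fun n hn => hcor _ (hψG n (mem_range.mp hn)))
  rw [mem_range] at hn₀
  rw [card_range, ← hρ] at hpig
  set F : Finset ℕ := (range G.card).filter fun n =>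
    ρ * H ≤ ‖∑ y ∈ Icc 1 H, ee (phs (grp H (ψ n)) y) *
      (starRingEnd ℂ) (ee (phs (grp H (ψ n₀)) y))‖ with hF
  have hk₀ := hG (hψG n₀ hn₀)
  have hgr : ∀ k ∈ Grid t H, ∀ i, k i < H ^ (i.val + 1) := by
    intro k hk i
    unfold Grid at hk
    rw [Fintype.mem_piFinset] at hk
    exact mem_range.mp (hk i)
  -- the parameters of a neighbour
  have hpar : ∀ n ∈ F, ∃ q : ℕ, 1 ≤ q ∧ q ≤ Q ∧ ∀ i : Fin t, ∃ m r : ℤ, |m| ≤ 2 * Q ∧ |r| ≤ Q ∧
      (q : ℤ) * ((ψ n i : ℤ) - ψ n₀ i) = m * (H : ℤ) ^ (i.val + 1) + r := by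
    intro n hn
    rw [hF, mem_filter, mem_range] at hn
    obtain ⟨hn1, hn2⟩ := hn
    have e1 : ∑ y ∈ Icc 1 H, ee (phs (grp H (ψ n)) y) *
      (starRingEnd ℂ) (ee (phs (grp H (ψ n₀)) y)) =
        ∑ y ∈ Icc 1 H, ee ((dp (grp H (ψ n)) (grp H (ψ n₀))).eval (y : ℝ)) := by
      refine sum_congr rfl fun y _ => ?_
      rw [dp_eval, conj_ee, ← ee_add, sub_eq_add_neg]
    rw [e1] at hn2
    obtain ⟨q, hq1, hq2, hq3⟩ := hA ρ H _ hρ0 hρ2 hbig (dp_deg _ _) hn2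
    have hqQ : q ≤ Q := by
      have : (q : ℝ) ≤ Q := hq2.trans hQge
      exact_mod_cast this
    refine ⟨q, hq1, hqQ, fun i => ?_⟩
    have h1 := hq3 (i.val + 1) (by omega) (by have := i.isLt; omega)
    rw [dp_coeff] at h1
    obtain ⟨m, hm⟩ := nd_exists ((q : ℝ) * (grp H (ψ n) i - grp H (ψ n₀) i))
    rw [hm] at h1
    have hHi : (0 : ℝ) < (H : ℝ) ^ (i.val + 1) := by positivity
    have h2 : |(q : ℝ) * ((ψ n i : ℝ) - ψ n₀ i) - m * (H : ℝ) ^ (i.val + 1)| ≤ Q := by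
      have e2 : (q : ℝ) * (grp H (ψ n) i - grp H (ψ n₀) i) - m =
          ((q : ℝ) * ((ψ n i : ℝ) - ψ n₀ i) - m * (H : ℝ) ^ (i.val + 1)) /
            (H : ℝ) ^ (i.val + 1) := by
        unfold grp
        field_simp
      rw [e2, abs_div, abs_of_pos hHi, div_le_div_iff_of_pos_right hHi] at h1
      exact h1.trans hQge
    have h3 : |(q : ℤ) * ((ψ n i : ℤ) - ψ n₀ i) - m * (H : ℤ) ^ (i.val + 1)| ≤ Q := by
      exact_mod_cast h2
    refine ⟨m, (q : ℤ) * ((ψ n i : ℤ) - ψ n₀ i) - m * (H : ℤ) ^ (i.val + 1), ?_, h3, by ring⟩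
    -- the size of `m`
    have h4 := hgr _ (hG (hψG n hn1)) i
    have h5 := hgr _ hk₀ i
    obtain ⟨E, hE⟩ : ∃ E : ℤ, E = (H : ℤ) ^ (i.val + 1) := ⟨_, rfl⟩
    have hE1 : 1 ≤ E := by rw [hE]; exact_mod_cast Nat.one_le_pow _ _ hH
    have h6 : (ψ n i : ℤ) < E := by rw [hE]; exact_mod_cast h4
    have h7 : (ψ n₀ i : ℤ) < E := by rw [hE]; exact_mod_cast h5
    have h8 : (0 : ℤ) ≤ ψ n i := Int.natCast_nonneg _
    have h9 : (0 : ℤ) ≤ ψ n₀ i := Int.natCast_nonneg _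
    rw [← hE] at h3
    have hqi : (1 : ℤ) ≤ q := by exact_mod_cast hq1
    have hqQi : (q : ℤ) ≤ Q := by exact_mod_cast hqQ
    have hQi : (1 : ℤ) ≤ Q := by exact_mod_cast hQ1
    rw [abs_le] at h3
    have h10 : (q : ℤ) * ((ψ n i : ℤ) - ψ n₀ i) ≤ Q * E := by
      calc (q : ℤ) * ((ψ n i : ℤ) - ψ n₀ i) ≤ q * E :=
            mul_le_mul_of_nonneg_left (by linarith) (by linarith)
        _ ≤ Q * E := mul_le_mul_of_nonneg_right hqQi (by linarith)
    have h11 : -((Q : ℤ) * E) ≤ (q : ℤ) * ((ψ n i : ℤ) - ψ n₀ i) := by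
      have : (q : ℤ) * ((ψ n₀ i : ℤ) - ψ n i) ≤ Q * E := by
        calc (q : ℤ) * ((ψ n₀ i : ℤ) - ψ n i) ≤ q * E :=
              mul_le_mul_of_nonneg_left (by linarith) (by linarith)
          _ ≤ Q * E := mul_le_mul_of_nonneg_right hqQi (by linarith)
      linarith
    rw [abs_le]
    constructor
    · by_contra hcon
      push Not at hcon
      have : m + 1 ≤ -(2 * (Q : ℤ)) := by linarith
      nlinarith
    · by_contra hcon
      push Not at hcon
      have : 2 * (Q : ℤ) + 1 ≤ m := by linarith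
      nlinarith
  choose! q hq1 hqQ hmr using hpar
  choose! m r hm hr hmr using hmr
  have hFK : F.card ≤ K₁ := by
    have hcard : F.card ≤ (Icc (0 : ℤ) Q ×ˢ Fintype.piFinset fun _ : Fin t =>
        (Icc (-(2 * Q : ℤ)) (2 * Q) ×ˢ Icc (-(Q : ℤ)) Q)).card := by
      apply card_le_card_of_injOn (fun n => ((q n : ℤ), fun i => (m n i, r n i)))
      · intro n hn
        have hn' : n ∈ F := hn
        simp only [coe_product, Set.mem_prod, mem_coe, mem_Icc, Fintype.mem_piFinset, mem_product]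
        have h1 := hqQ n hn'
        refine ⟨⟨by positivity, by exact_mod_cast h1⟩, fun i => ?_⟩
        have h2 := abs_le.mp (hm n hn' i)
        have h3 := abs_le.mp (hr n hn' i)
        exact ⟨⟨h2.1, h2.2⟩, h3.1, h3.2⟩
      · intro n hn n' hn' h
        have hnF : n ∈ F := hn
        have hnF' : n' ∈ F := hn'
        simp only [Prod.mk.injEq] at h
        obtain ⟨hq, hfun⟩ := h
        have hq' : q n = q n' := by exact_mod_cast hq
        have hcn : n < G.card := by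
          rw [hF, mem_filter, mem_range] at hnF; exact hnF.1
        have hcn' : n' < G.card := by
          rw [hF, mem_filter, mem_range] at hnF'; exact hnF'.1
        apply hψi n n' hcn hcn'
        funext i
        have h1 := congrFun hfun i
        simp only [Prod.mk.injEq] at h1
        have h2 := hmr n hnF i
        have h3 := hmr n' hnF' i
        rw [h1.1, h1.2, ← h3, hq'] at h2
        have h4 : (0 : ℤ) < q n' := by exact_mod_cast hq1 n' hnF'
        have h5 := mul_left_cancel₀ h4.ne' h2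
        have h6 : (ψ n i : ℤ) = ψ n' i := by linarith
        exact_mod_cast h6
    refine hcard.trans (le_of_eq ?_)
    have c1 : (Icc (0 : ℤ) Q).card = Q + 1 := by rw [Int.card_Icc]; omega
    have c2 : (Icc (-(2 * Q : ℤ)) (2 * Q)).card = 4 * Q + 1 := by rw [Int.card_Icc]; omega
    have c3 : (Icc (-(Q : ℤ)) Q).card = 2 * Q + 1 := by rw [Int.card_Icc]; omega
    rw [card_product, Fintype.card_piFinset, hK₁, c1]
    simp only [card_product, c2, c3, prod_const, card_univ, Fintype.card_fin]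
  have h1 : ρ * (G.card : ℝ) ≤ K₁ := hpig.trans (by exact_mod_cast hFK)
  have h2 : (G.card : ℝ) ≤ K₂ := by
    rw [hK₂]
    refine le_trans ?_ (Nat.le_ceil _)
    rw [le_div_iff₀ hρ0]
    linarith
  have h3 : G.card ≤ K₂ := by exact_mod_cast h2
  omega

end Pool.Agent.XS
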