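import Mathlib
import Pool.Agent.Lib.XS.Conv

/-!
# The converse for polynomial phases of degree at most `t`
-/

set_option autoImplicit false
open Finset Polynomial

namespace Pool.Agent.XS

open Pool.Agent.Lib.MP_663568_nt Pool.Agent.Lib.MP_663568_nt.Katai
  Pool.Agent.Lib.MP_663568_nt.Nul

/-- a block of `μ` against a polynomial phase. -/
noncomputable def blkT {t : ℕ} (b : Fin t → ℝ) (H n : ℕ) : ℝ :=
  ‖∑ h ∈ Icc 1 H, ((ArithmeticFunction.moebius (n + h) : ℤ) : ℂ) * ee (phs b h)‖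

/-- `∑_{n ≤ N} (1 / n) sup_b |∑_{h ≤ H} μ(n + h) e(b_1 h + ⋯ + b_t h ^ t)|`. -/
noncomputable def ST (t N H : ℕ) : ℝ :=
  ∑ n ∈ Icc 1 N, (1 / (n : ℝ)) * ⨆ b : Fin t → ℝ, blkT b H n

open Classical in
/-- `∑ 1 / n` over the `n ≤ N` with `|∑_{h ≤ H} μ(n + h) e(b_1 h + ⋯ + b_t h ^ t)| ≥ c H`. -/
noncomputable def ExcT {t : ℕ} (b : Fin t → ℝ) (c : ℝ) (H N : ℕ) : ℝ :=
  ∑ n ∈ Icc 1 N, if c * H ≤ blkT b H n then 1 / (n : ℝ) else 0

lemma blkT_nonneg {t : ℕ} (b : Fin t → ℝ) (H n : ℕ) : 0 ≤ blkT b H n := norm_nonneg _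

lemma blkT_le {t : ℕ} (b : Fin t → ℝ) (H n : ℕ) : blkT b H n ≤ H := by
  unfold blkT
  refine (norm_sum_le _ _).trans ?_
  calc ∑ h ∈ Icc 1 H, ‖((ArithmeticFunction.moebius (n + h) : ℤ) : ℂ) * ee (phs b h)‖
      ≤ ∑ h ∈ Icc 1 H, (1 : ℝ) := by
        refine sum_le_sum fun h _ => ?_
        rw [norm_mul, norm_ee, mul_one, Complex.norm_intCast]
        exact_mod_cast ArithmeticFunction.abs_moebius_le_one
    _ = H := by simp

lemma blkT_le_sup {t : ℕ} (b : Fin t → ℝ) (H n : ℕ) : blkT b H n ≤ ⨆ b : Fin t → ℝ, blkT b H n :=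
  le_ciSup (f := fun b : Fin t → ℝ => blkT b H n) ⟨H, by rintro _ ⟨b, rfl⟩; exact blkT_le b H n⟩ b

/-- **The converse inequality, all degrees.** -/
theorem conv (t : ℕ) (ht : 1 ≤ t) (c : ℝ) (hc : 0 < c) : ∃ K : ℝ, 0 ≤ K ∧ ∀ H N : ℕ, 1 ≤ H →
    ∑ k ∈ Grid t H, ExcT (grp H k) c H N ≤ K * (ST t N H / H) := by
  classical
  obtain ⟨K, hK⟩ := few_grid t ht (min c 1) (by positivity) (min_le_right _ _)
  refine ⟨K / c, by positivity, fun H N hH => ?_⟩
  have hHr : (0 : ℝ) < H := by exact_mod_cast hH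
  have h1 : ∀ n, (∑ k ∈ Grid t H, if c * H ≤ blkT (grp H k) H n then (1 : ℝ) else 0) ≤
      K / c * ((⨆ b : Fin t → ℝ, blkT b H n) / H) := by
    intro n
    have hs0 : 0 ≤ ⨆ b : Fin t → ℝ, blkT b H n := Real.iSup_nonneg fun b => blkT_nonneg b H n
    set G : Finset (Fin t → ℕ) := (Grid t H).filter fun k => c * H ≤ blkT (grp H k) H n with hG
    have e1 : (∑ k ∈ Grid t H, if c * H ≤ blkT (grp H k) H n then (1 : ℝ) else 0) = G.card := by
      rw [hG, card_filter]; push_cast; rfl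
    rw [e1]
    rcases G.eq_empty_or_nonempty with he | ⟨k, hk⟩
    · rw [he]
      simp only [card_empty, Nat.cast_zero]
      positivity
    have h2 : G.card ≤ K := by
      apply hK H (fun h => ((ArithmeticFunction.moebius (n + h) : ℤ) : ℂ)) hH (fun h => ?_) G
        (filter_subset _ _) (fun k hk => ?_)
      · rw [Complex.norm_intCast]
        exact_mod_cast ArithmeticFunction.abs_moebius_le_one
      · rw [hG, mem_filter] at hk
        refine le_trans ?_ hk.2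
        exact mul_le_mul_of_nonneg_right (min_le_left _ _) hHr.le
    have h3 : c * H ≤ ⨆ b : Fin t → ℝ, blkT b H n := by
      rw [hG, mem_filter] at hk
      exact hk.2.trans (blkT_le_sup _ H n)
    have h4 : (1 : ℝ) ≤ 1 / c * ((⨆ b : Fin t → ℝ, blkT b H n) / H) := by
      rw [one_div, inv_mul_eq_div, le_div_iff₀ hc, le_div_iff₀ hHr]
      linarith
    calc (G.card : ℝ) ≤ K := by exact_mod_cast h2
      _ = K * 1 := (mul_one _).symm
      _ ≤ K * (1 / c * ((⨆ b : Fin t → ℝ, blkT b H n) / H)) :=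
          mul_le_mul_of_nonneg_left h4 (Nat.cast_nonneg _)
      _ = _ := by ring
  have e1 : ∑ k ∈ Grid t H, ExcT (grp H k) c H N = ∑ n ∈ Icc 1 N, (1 / (n : ℝ)) *
      ∑ k ∈ Grid t H, if c * H ≤ blkT (grp H k) H n then (1 : ℝ) else 0 := by
    simp only [ExcT, mul_sum]
    rw [sum_comm]
    exact sum_congr rfl fun n _ => sum_congr rfl fun k _ => by split_ifs <;> simp
  have e2 : K / c * (ST t N H / H) = ∑ n ∈ Icc 1 N, (1 / (n : ℝ)) *
      (K / c * ((⨆ b : Fin t → ℝ, blkT b H n) / H)) := by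
    rw [ST, sum_div, mul_sum]
    exact sum_congr rfl fun n _ => by ring
  rw [e1, e2]
  exact sum_le_sum fun n _ => mul_le_mul_of_nonneg_left (h1 n) (by positivity)

lemma grid_card (t H : ℕ) : (Grid t H).card = ∏ i : Fin t, H ^ (i.val + 1) := by
  unfold Grid
  rw [Fintype.card_piFinset]
  exact prod_congr rfl fun i _ => card_range _

lemma grid_card' (t H : ℕ) : (Grid t H).card = H ^ (t * (t + 1) / 2) := by
  rw [grid_card, prod_pow_eq_pow_sum]
  congr 1
  have h := Fin.sum_univ_eq_sum_range (fun i => i + 1) t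
  rw [h]
  have h2 : ∑ i ∈ range t, (i + 1) = ∑ i ∈ range (t + 1), i := by
    rw [sum_range_succ' (fun i => i) t]; simp
  rw [h2, sum_range_id, Nat.add_sub_cancel, mul_comm]

/-- **The exceptional set of some phase is small if the supremum is small.** -/
theorem conv_exists (t : ℕ) (ht : 1 ≤ t) (h : ∀ ε : ℝ, 0 < ε → ∃ H₀ : ℕ, ∀ N H : ℕ, H₀ ≤ H →
    H ≤ N → ST t N H ≤ ε * H * Real.log N) (c : ℝ) (hc : 0 < c) :
    ∃ H N₀ : ℕ, 1 ≤ H ∧ ∀ N : ℕ, N₀ ≤ N → ∃ b : Fin t → ℝ,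
      (H : ℝ) ^ (t * (t + 1) / 2) * ExcT b c H N < c * Real.log N := by
  obtain ⟨K, hK0, hK⟩ := conv t ht c hc
  obtain ⟨H₀, h⟩ := h (c / (2 * (K + 1))) (by positivity)
  refine ⟨H₀ + 1, H₀ + 2, by omega, fun N hN => ?_⟩
  obtain ⟨H, hH⟩ : ∃ H : ℕ, H = H₀ + 1 := ⟨_, rfl⟩
  rw [← hH]
  have hH1 : 1 ≤ H := by omega
  have hHr : (0 : ℝ) < H := by exact_mod_cast hH1
  have hN2 : (1 : ℝ) < N := by
    have : 1 < N := by omega
    exact_mod_cast this
  have hlN : 0 < Real.log N := Real.log_pos hN2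
  have h1 := h N H (by omega) (by omega)
  have h2 := hK H N hH1
  have h3 : ∑ k ∈ Grid t H, ExcT (grp H k) c H N < c * Real.log N := by
    refine lt_of_le_of_lt h2 ?_
    have h4 : ST t N H / H ≤ c / (2 * (K + 1)) * Real.log N := by
      rw [div_le_iff₀ hHr]; linarith
    calc K * (ST t N H / H) ≤ K * (c / (2 * (K + 1)) * Real.log N) :=
          mul_le_mul_of_nonneg_left h4 hK0
      _ ≤ (K + 1) * (c / (2 * (K + 1)) * Real.log N) := by
          apply mul_le_mul_of_nonneg_right (by linarith) (by positivity)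
      _ = c / 2 * Real.log N := by field_simp
      _ < _ := by nlinarith [mul_pos hc hlN]
  have hne : (Grid t H).Nonempty := by
    rw [← card_pos, grid_card]
    exact prod_pos fun i _ => Nat.pos_of_ne_zero (by positivity)
  by_contra hcon
  push Not at hcon
  have h4 : (Grid t H).card • ((c * Real.log N) / (Grid t H).card) ≤
      ∑ k ∈ Grid t H, ExcT (grp H k) c H N := by
    apply card_nsmul_le_sum
    intro k _
    have h5 := hcon (grp H k)
    have h6 : ((Grid t H).card : ℝ) = (H : ℝ) ^ (t * (t + 1) / 2) := by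
      rw [grid_card']; push_cast; rfl
    rw [h6, div_le_iff₀ (by positivity)]
    linarith
  rw [nsmul_eq_mul, mul_div_cancel₀ _ (by exact_mod_cast hne.card_pos.ne')] at h4
  linarith

end Pool.Agent.XS
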