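import Mathlib
import Pool.Agent.Lib.MP_663568_dch.Up
import Pool.Agent.Lib.WC86.Major

/-!
# Level sets of one linear phase on short blocks: one window
-/

set_option autoImplicit false
open Finset MeasureTheory

namespace Pool.Agent.XS

open Pool.Agent.Lib.MP_663568_nt Pool.Agent.Lib.MP_663568_nt.Katai
  Pool.Agent.Lib.MP_663568_nt.Nul Pool.Agent.Lib.MP_663568_nt.H6 Pool.Agent.Lib.MP_663568_dch

/-- the sum of the distances to the centre of a block -/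
lemma cent (H : ℕ) : ∑ h ∈ Icc 1 H, |2 * (h : ℝ) - (H + 1)| ≤ (H : ℝ) ^ 2 / 2 := by
  have key : ∀ H : ℕ, ∑ h ∈ range H, |2 * (h : ℝ) + 1 - H| ≤ (H : ℝ) ^ 2 / 2 := by
    intro H
    induction H using Nat.twoStepInduction with
    | zero => simp
    | one => norm_num
    | more n ih _ =>
      rw [sum_range_succ, sum_range_succ']
      have e : ∀ k ∈ range n, |2 * ((k + 1 : ℕ) : ℝ) + 1 - ((n + 2 : ℕ) : ℝ)| =
          |2 * (k : ℝ) + 1 - n| := by
        intro k _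
        congr 1
        push_cast
        ring
      rw [sum_congr rfl e]
      have hn : (0 : ℝ) ≤ n := Nat.cast_nonneg _
      have e1 : |2 * ((0 : ℕ) : ℝ) + 1 - ((n + 2 : ℕ) : ℝ)| = n + 1 := by
        push_cast
        rw [abs_of_nonpos (by linarith)]
        ring
      have e2 : |2 * ((n + 1 : ℕ) : ℝ) + 1 - ((n + 2 : ℕ) : ℝ)| = n + 1 := by
        push_cast
        rw [abs_of_nonneg (by linarith)]
        ring
      rw [e1, e2]
      push_cast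
      nlinarith
  refine le_trans (le_of_eq ?_) (key H)
  have e : Icc 1 H = (range H).image (fun k => k + 1) := by
    ext x
    simp only [mem_Icc, mem_image, mem_range]
    constructor
    · rintro ⟨h1, h2⟩; exact ⟨x - 1, by omega, by omega⟩
    · rintro ⟨k, hk, rfl⟩; omega
  rw [e, sum_image (fun a _ b _ h => by simpa using h)]
  refine sum_congr rfl fun k _ => ?_
  congr 1
  push_cast
  ring

/-- two close frequencies on a short block -/
lemma blk_sub (a : ℕ → ℂ) (ha : ∀ n, ‖a n‖ ≤ 1) (κ : ℝ) (H : ℕ) (hH : 1 ≤ H) (β γ : ℝ)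
    (h : nd (γ - β) ≤ κ / H) (m : ℕ) :
    ws (ph γ) a m H ≤ ws (ph β) a m H + Real.pi * κ / 2 * H := by
  have hHr : (0 : ℝ) < H := by exact_mod_cast hH
  obtain ⟨b, hb⟩ := nd_exists (γ - β)
  obtain ⟨θ, hθ⟩ : ∃ θ : ℝ, θ = γ - β - b := ⟨_, rfl⟩
  rw [hb, ← hθ] at h
  have hph : ∀ j : ℕ, ph γ (m + j) = ee (θ * (m + (H + 1) / 2)) *
      (ph β (m + j) * ee (θ * ((2 * (j : ℝ) - (H + 1)) / 2))) := by
    intro j
    unfold Pool.Agent.Lib.MP_663568_dch.ph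
    rw [← ee_add, ← ee_add]
    have e : γ * ((m + j : ℕ) : ℝ) = θ * (m + (H + 1) / 2) +
        (β * ((m + j : ℕ) : ℝ) + θ * ((2 * (j : ℝ) - (H + 1)) / 2)) +
          ((b * ((m + j : ℕ) : ℤ) : ℤ) : ℝ) := by
      rw [hθ]; push_cast; ring
    rw [e, ee_add (_ + _), ee_int, mul_one]
  have e1 : ∑ j ∈ Icc 1 H, ph γ (m + j) * a (m + j) = ee (θ * (m + (H + 1) / 2)) *
      ∑ j ∈ Icc 1 H, (ph β (m + j) * a (m + j)) * ee (θ * ((2 * (j : ℝ) - (H + 1)) / 2)) := by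
    rw [mul_sum]
    refine sum_congr rfl fun j _ => ?_
    rw [hph j]; ring
  have e2 : ∑ j ∈ Icc 1 H, (ph β (m + j) * a (m + j)) * ee (θ * ((2 * (j : ℝ) - (H + 1)) / 2)) =
      ∑ j ∈ Icc 1 H, ph β (m + j) * a (m + j) +
      ∑ j ∈ Icc 1 H, (ph β (m + j) * a (m + j)) *
        (ee (θ * ((2 * (j : ℝ) - (H + 1)) / 2)) - 1) := by
    rw [← sum_add_distrib]
    exact sum_congr rfl fun j _ => by ring
  have h1 : ws (ph γ) a m H = ‖∑ j ∈ Icc 1 H, (ph β (m + j) * a (m + j)) *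
      ee (θ * ((2 * (j : ℝ) - (H + 1)) / 2))‖ := by
    rw [ws, e1, norm_mul, norm_ee, one_mul]
  rw [h1, e2]
  refine (norm_add_le _ _).trans (add_le_add le_rfl ?_)
  refine (norm_sum_le _ _).trans ?_
  calc ∑ j ∈ Icc 1 H, ‖(ph β (m + j) * a (m + j)) *
        (ee (θ * ((2 * (j : ℝ) - (H + 1)) / 2)) - 1)‖
      ≤ ∑ j ∈ Icc 1 H, Real.pi * (κ / H) * |2 * (j : ℝ) - (H + 1)| := by
        refine sum_le_sum fun j _ => ?_
        rw [norm_mul, norm_mul]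
        have h2 := Pool.Agent.WC86.Maj2.norm_ee_sub_one (θ * ((2 * (j : ℝ) - (H + 1)) / 2))
        have h3 : ‖ph β (m + j)‖ * ‖a (m + j)‖ ≤ 1 :=
          mul_le_one₀ (norm_ph _ _) (norm_nonneg _) (ha _)
        have h4 : |θ * ((2 * (j : ℝ) - (H + 1)) / 2)| ≤ κ / H * (|2 * (j : ℝ) - (H + 1)| / 2) := by
          rw [abs_mul, abs_div, abs_of_pos (by norm_num : (0 : ℝ) < 2)]
          exact mul_le_mul_of_nonneg_right h (by positivity)
        calc ‖ph β (m + j)‖ * ‖a (m + j)‖ * ‖ee (θ * ((2 * (j : ℝ) - (H + 1)) / 2)) - 1‖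
            ≤ 1 * (2 * Real.pi * (κ / H * (|2 * (j : ℝ) - (H + 1)| / 2))) := by
              refine mul_le_mul h3 (h2.trans ?_) (norm_nonneg _) zero_le_one
              exact mul_le_mul_of_nonneg_left h4 (by positivity)
          _ = _ := by ring
    _ = Real.pi * (κ / H) * ∑ j ∈ Icc 1 H, |2 * (j : ℝ) - (H + 1)| := by rw [mul_sum]
    _ ≤ Real.pi * (κ / H) * ((H : ℝ) ^ 2 / 2) := by
        refine mul_le_mul_of_nonneg_left (cent H) ?_
        have : 0 ≤ κ / H := (abs_nonneg _).trans h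
        positivity
    _ = Real.pi * κ / 2 * H := by field_simp

/-- the indicator of the level set of one phase on a block -/
noncomputable def bad (a : ℕ → ℂ) (β c : ℝ) (H m : ℕ) : ℝ :=
  if c * H < ws (ph β) a m H then 1 else 0

lemma bad_nonneg (a : ℕ → ℂ) (β c : ℝ) (H m : ℕ) : 0 ≤ bad a β c H m := by
  unfold bad; split_ifs <;> norm_num

lemma bad_le_one (a : ℕ → ℂ) (β c : ℝ) (H m : ℕ) : bad a β c H m ≤ 1 := by
  unfold bad; split_ifs <;> norm_num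

/-- the proportion of the level set in a window -/
noncomputable def Bf (a : ℕ → ℂ) (β c : ℝ) (H m K : ℕ) : ℝ :=
  (∑ i ∈ Ico m (m + K), bad a β c H i) / K

lemma Bf_nonneg (a : ℕ → ℂ) (β c : ℝ) (H m K : ℕ) : 0 ≤ Bf a β c H m K :=
  div_nonneg (sum_nonneg fun _ _ => bad_nonneg _ _ _ _ _) (Nat.cast_nonneg _)

lemma Bf_le_one (a : ℕ → ℂ) (β c : ℝ) (H m K : ℕ) : Bf a β c H m K ≤ 1 := by
  unfold Bf
  rcases Nat.eq_zero_or_pos K with h | h
  · subst h; simp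
  · rw [div_le_one (by exact_mod_cast h)]
    calc _ ≤ ∑ i ∈ Ico m (m + K), (1 : ℝ) := sum_le_sum fun _ _ => bad_le_one _ _ _ _ _
      _ = K := by simp

/-- a window, cut into short blocks -/
lemma win_child (a : ℕ → ℂ) (ha : ∀ n, ‖a n‖ ≤ 1) (κ c : ℝ) (hc : 0 ≤ c) (H : ℕ) (hH : 1 ≤ H)
    (β γ : ℝ) (h : nd (γ - β) ≤ κ / H) (m K : ℕ) (hK : 0 < K) :
    ws (ph γ) a m K ≤ (c + Real.pi * κ / 2 + Bf a β c H m K) * K + 2 * H := by
  have hHr : (0 : ℝ) < H := by exact_mod_cast hH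
  have hKr : (0 : ℝ) < K := by exact_mod_cast hK
  have h1 := Pool.Agent.WC86.Maj2.ws_avg (ph γ) a (norm_ph γ) ha m K H
  have h2 : ∀ i, ws (ph γ) a i H ≤ (c + Real.pi * κ / 2 + bad a β c H i) * H := by
    intro i
    have h3 := blk_sub a ha κ H hH β γ h i
    have h4 : ws (ph β) a i H ≤ (c + bad a β c H i) * H := by
      unfold bad
      split_ifs with h5
      · have := ws_le (ph β) a (norm_ph β) ha i H
        have : 0 ≤ c * H := by positivity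
        linarith
      · push Not at h5
        linarith
    linarith
  have h3 : ∑ i ∈ Ico m (m + K), ws (ph γ) a i H ≤
      (c + Real.pi * κ / 2 + Bf a β c H m K) * K * H := by
    calc _ ≤ ∑ i ∈ Ico m (m + K), (c + Real.pi * κ / 2 + bad a β c H i) * H :=
          sum_le_sum fun i _ => h2 i
      _ = _ := by
          rw [← sum_mul, sum_add_distrib, sum_const, Nat.card_Ico, Nat.add_sub_cancel_left,
            nsmul_eq_mul, Bf]
          field_simp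
  have h4 : (H : ℝ) * ws (ph γ) a m K ≤
      H * ((c + Real.pi * κ / 2 + Bf a β c H m K) * K + 2 * H) := by
    linarith
  exact le_of_mul_le_mul_left h4 hHr

open Classical in
/-- **One window, one frequency.** -/
theorem one_blk (a : ℕ → ℂ) (ha : ∀ n, ‖a n‖ ≤ 1) (hmul : Mult a)
    (P P' : Finset ℕ) (hP : ∀ p ∈ P, p.Prime) (hP' : ∀ p ∈ P', p.Prime) (P₀ : ℕ)
    (hP₀ : ∀ p ∈ P, P₀ ≤ p) (hP₀' : ∀ p ∈ P', P₀ ≤ p) (η : ℝ) (hη : 0 < η)
    (hη8 : 8 / η ≤ P₀) (hW : 16 / η ^ 3 ≤ WW P) (hW' : 16 / η ^ 3 ≤ WW P')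
    (β κ c : ℝ) (hκ : 0 ≤ κ) (hc : 0 ≤ c) (H : ℕ) (hH : 1 ≤ H) (φ : ℝ → ℝ)
    (hφ1 : ∀ x, φ x ≤ 1) (hφs : ∀ x, φ x ≠ 0 → nd (x - β) ≤ κ / H) (I : ℝ) (hI : 2 * η ≤ I)
    (y : ℝ) (hy : (I - η) * (WW P * WW P') ≤
      ∑ z ∈ P ×ˢ P', 1 / ((z.1 : ℝ) * z.2) * φ ((z.1 : ℝ) * z.2 * y))
    (n L : ℕ) (hL : LongH P P' η L)
    (hLz : ∀ z ∈ P ×ˢ P', 2 * (H : ℝ) / η ≤ ((L / z.1 / z.2 : ℕ) : ℝ)) :
    (I - 2 * η) * (WW P * WW P') * (cc a n L y - (c + Real.pi * κ / 2 + 3 * η)) ≤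
      ∑ z ∈ P ×ˢ P', 1 / ((z.1 : ℝ) * z.2) * Bf a β c H (n / z.1 / z.2) (L / z.1 / z.2) := by
  have hw : ∀ z : ℕ × ℕ, 0 ≤ 1 / ((z.1 : ℝ) * z.2) := fun z => by positivity
  have hWP := WW_nonneg P
  have hWP' := WW_nonneg P'
  have hL0 := hL.1
  have hHr : (0 : ℝ) < H := by exact_mod_cast hH
  obtain ⟨W, hWd⟩ : ∃ W : ℝ, W = WW P * WW P' := ⟨_, rfl⟩
  rw [← hWd] at hy ⊢
  have hW0 : 0 ≤ W := by rw [hWd]; exact mul_nonneg hWP hWP'
  obtain ⟨x, hx⟩ : ∃ x : ℝ, x = cc a n L y := ⟨_, rfl⟩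
  obtain ⟨u, hu⟩ : ∃ u : ℝ, u = x - (c + Real.pi * κ / 2 + 3 * η) := ⟨_, rfl⟩
  rw [← hx, ← hu]
  have hR0 : 0 ≤ ∑ z ∈ P ×ˢ P', 1 / ((z.1 : ℝ) * z.2) *
      Bf a β c H (n / z.1 / z.2) (L / z.1 / z.2) :=
    sum_nonneg fun z _ => mul_nonneg (hw z) (Bf_nonneg _ _ _ _ _ _)
  rcases le_or_gt u 0 with hu0 | hu0
  · refine le_trans ?_ hR0
    have : 0 ≤ (I - 2 * η) * W := mul_nonneg (by linarith) hW0
    nlinarith
  have hpk : 0 ≤ Real.pi * κ / 2 := by positivity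
  have hx3 : 3 * η < x := by linarith
  have hx1 : x ≤ 1 := by rw [hx]; exact cc_le_one a ha n L y
  have hu1 : u ≤ 1 := by linarith
  set Bd := badpp P P' (ph y) a η x n L with hBd
  have hbw : ∑ z ∈ Bd, 1 / ((z.1 : ℝ) * z.2) ≤ η * W := by
    have h1 := badpp_weight P P' hP hP' P₀ hP₀ hP₀' η x hη (by linarith) hη8 (ph y) a
      (norm_ph y) ha hmul n L hL (by rw [hx]; exact (cc_mul a n L hL0 y).ge)
    refine h1.trans ?_
    have h2 : 8 / η ^ 2 * WW P ≤ η / 2 * W := by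
      rw [div_le_iff₀ (by positivity)] at hW'
      rw [hWd, div_mul_eq_mul_div, div_le_iff₀ (by positivity)]
      nlinarith [mul_le_mul_of_nonneg_left hW' hWP]
    have h3 : 8 / η ^ 2 * WW P' ≤ η / 2 * W := by
      rw [div_le_iff₀ (by positivity)] at hW
      rw [hWd, div_mul_eq_mul_div, div_le_iff₀ (by positivity)]
      nlinarith [mul_le_mul_of_nonneg_left hW hWP']
    calc 8 / η ^ 2 * (WW P + WW P') = 8 / η ^ 2 * WW P + 8 / η ^ 2 * WW P' := by ring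
      _ ≤ η / 2 * W + η / 2 * W := add_le_add h2 h3
      _ = η * W := by ring
  have hpt : ∀ z ∈ P ×ˢ P', φ ((z.1 : ℝ) * z.2 * y) * u ≤
      Bf a β c H (n / z.1 / z.2) (L / z.1 / z.2) + (if z ∈ Bd then u else 0) := by
    intro z hz
    have hB0 := Bf_nonneg a β c H (n / z.1 / z.2) (L / z.1 / z.2)
    by_cases hb : z ∈ Bd
    · rw [if_pos hb]
      have := hφ1 ((z.1 : ℝ) * z.2 * y)
      nlinarith
    · rw [if_neg hb, add_zero]
      by_cases hφz : φ ((z.1 : ℝ) * z.2 * y) = 0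
      · rw [hφz, zero_mul]; exact hB0
      · have h1 := hφs _ hφz
        have hK0r : (0 : ℝ) < ((L / z.1 / z.2 : ℕ) : ℝ) :=
          lt_of_lt_of_le (by positivity) (hLz z hz)
        have hK0 : 0 < L / z.1 / z.2 := by exact_mod_cast hK0r
        have h2 := win_child a ha κ c hc H hH β _ h1 (n / z.1 / z.2) (L / z.1 / z.2) hK0
        rw [hBd, badpp, mem_filter, not_and, not_not] at hb
        have h3 := hb hz
        rw [ph_mul] at h3
        have e : (((z.1 * z.2 : ℕ) : ℝ)) * y = (z.1 : ℝ) * z.2 * y := by push_cast; ring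
        rw [e] at h3
        have h4 : 2 * (H : ℝ) ≤ η * ((L / z.1 / z.2 : ℕ) : ℝ) := by
          have := hLz z hz
          rw [div_le_iff₀ hη] at this
          linarith
        have h5 : (x - 2 * η) * ((L / z.1 / z.2 : ℕ) : ℝ) ≤
            (c + Real.pi * κ / 2 + Bf a β c H (n / z.1 / z.2) (L / z.1 / z.2) + η) *
              ((L / z.1 / z.2 : ℕ) : ℝ) := by linarith
        have h6 := le_of_mul_le_mul_right h5 hK0r
        have h7 : u ≤ Bf a β c H (n / z.1 / z.2) (L / z.1 / z.2) := by rw [hu]; linarith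
        calc φ ((z.1 : ℝ) * z.2 * y) * u ≤ 1 * u :=
              mul_le_mul_of_nonneg_right (hφ1 _) hu0.le
          _ = u := one_mul u
          _ ≤ _ := h7
  have hsum : ∑ z ∈ P ×ˢ P', 1 / ((z.1 : ℝ) * z.2) * (φ ((z.1 : ℝ) * z.2 * y) * u) ≤
      ∑ z ∈ P ×ˢ P', 1 / ((z.1 : ℝ) * z.2) * (Bf a β c H (n / z.1 / z.2) (L / z.1 / z.2) +
        (if z ∈ Bd then u else 0)) :=
    sum_le_sum fun z hz => mul_le_mul_of_nonneg_left (hpt z hz) (hw z)
  have e1 : ∑ z ∈ P ×ˢ P', 1 / ((z.1 : ℝ) * z.2) * (φ ((z.1 : ℝ) * z.2 * y) * u) =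
      (∑ z ∈ P ×ˢ P', 1 / ((z.1 : ℝ) * z.2) * φ ((z.1 : ℝ) * z.2 * y)) * u := by
    rw [sum_mul]; exact sum_congr rfl fun z _ => by ring
  have e2 : ∑ z ∈ P ×ˢ P', 1 / ((z.1 : ℝ) * z.2) *
      (Bf a β c H (n / z.1 / z.2) (L / z.1 / z.2) + (if z ∈ Bd then u else 0)) =
      ∑ z ∈ P ×ˢ P', 1 / ((z.1 : ℝ) * z.2) * Bf a β c H (n / z.1 / z.2) (L / z.1 / z.2) +
      (∑ z ∈ Bd, 1 / ((z.1 : ℝ) * z.2)) * u := by
    simp only [mul_add, sum_add_distrib]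
    congr 1
    have hsub : Bd ⊆ P ×ˢ P' := filter_subset _ _
    rw [sum_mul, ← sum_subset hsub (fun z _ hz => by rw [if_neg hz, mul_zero])]
    exact sum_congr rfl fun z hz => by rw [if_pos hz]
  rw [e1, e2] at hsum
  have h8 := mul_le_mul_of_nonneg_right hy hu0.le
  have h9 := mul_le_mul_of_nonneg_right hbw hu0.le
  nlinarith

end Pool.Agent.XS
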