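import Mathlib
import Pool.Agent.Lib.XS.T1a

/-!
# Equidistribution of the products of two primes in a short arc
-/

set_option autoImplicit false
open Finset MeasureTheory

namespace Pool.Agent.XS

open Pool.Agent.Lib.MP_663568_nt Pool.Agent.Lib.MP_663568_nt.Katai
  Pool.Agent.Lib.MP_663568_nt.Nul Pool.Agent.Lib.MP_663568_nt.H6 Pool.Agent.Lib.MP_663568_dch

/-- the length of an arc -/
lemma arc_vol (β ρ : ℝ) (hρ : 0 < ρ) (hρ2 : ρ ≤ 1 / 2) :
    ENNReal.ofReal (2 * ρ) ≤ volume {y : ℝ | y ∈ Set.Icc (0 : ℝ) 1 ∧ nd (y - β) ≤ ρ} := by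
  obtain ⟨f, hf⟩ : ∃ f : ℝ, f = Int.fract β := ⟨_, rfl⟩
  have hf0 : 0 ≤ f := by rw [hf]; exact Int.fract_nonneg β
  have hf1 : f < 1 := by rw [hf]; exact Int.fract_lt_one β
  have hnd : ∀ (y : ℝ) (m : ℤ), nd (y - β) ≤ |y - f - m| := by
    intro y m
    have h1 := nd_le (y - β) (m - ⌊β⌋)
    have e : y - β - ((m - ⌊β⌋ : ℤ) : ℝ) = y - f - m := by
      rw [hf, Int.fract]; push_cast; ring
    rw [e] at h1
    exact h1
  have two : ∀ s t u v : ℝ, s ≤ t → t ≤ u → u ≤ v → 2 * ρ ≤ (t - s) + (v - u) →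
      Set.Icc s t ∪ Set.Ioc u v ⊆ {y : ℝ | y ∈ Set.Icc (0 : ℝ) 1 ∧ nd (y - β) ≤ ρ} →
      ENNReal.ofReal (2 * ρ) ≤ volume {y : ℝ | y ∈ Set.Icc (0 : ℝ) 1 ∧ nd (y - β) ≤ ρ} := by
    intro s t u v h1 h2 h3 h4 h5
    refine le_trans ?_ (measure_mono h5)
    rw [measure_union (by
      rw [Set.disjoint_left]
      intro x hx hx'
      have := hx.2
      have := hx'.1
      linarith) measurableSet_Ioc, Real.volume_Icc, Real.volume_Ioc,
      ← ENNReal.ofReal_add (by linarith) (by linarith)]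
    exact ENNReal.ofReal_le_ofReal h4
  rcases lt_or_ge f ρ with h | h
  · apply two 0 (f + ρ) (f + 1 - ρ) 1 (by linarith) (by linarith) (by linarith) (by linarith)
    rintro y (hy | hy)
    · refine ⟨⟨hy.1, by linarith [hy.2]⟩, (hnd y 0).trans ?_⟩
      rw [abs_le]
      push_cast
      constructor <;> linarith [hy.1, hy.2]
    · refine ⟨⟨by linarith [hy.1], hy.2⟩, (hnd y 1).trans ?_⟩
      rw [abs_le]
      push_cast
      constructor <;> linarith [hy.1, hy.2]
  rcases lt_or_ge (1 - ρ) f with h' | h'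
  · apply two 0 (f + ρ - 1) (f - ρ) 1 (by linarith) (by linarith) (by linarith) (by linarith)
    rintro y (hy | hy)
    · refine ⟨⟨hy.1, by linarith [hy.2]⟩, (hnd y (-1)).trans ?_⟩
      rw [abs_le]
      push_cast
      constructor <;> linarith [hy.1, hy.2]
    · refine ⟨⟨by linarith [hy.1], hy.2⟩, (hnd y 0).trans ?_⟩
      rw [abs_le]
      push_cast
      constructor <;> linarith [hy.1, hy.2]
  · apply two (f - ρ) (f + ρ) (f + ρ) (f + ρ) (by linarith) le_rfl le_rfl (by linarith)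
    rintro y (hy | hy)
    · refine ⟨⟨by linarith [hy.1], by linarith [hy.2]⟩, (hnd y 0).trans ?_⟩
      rw [abs_le]
      push_cast
      constructor <;> linarith [hy.1, hy.2]
    · exact absurd hy.2 (not_le.mpr hy.1)

/-- **Products of two primes carry a frequency into a short arc, with the right frequency.** -/
theorem equ_arc (P₀ : ℕ) (W₀ η : ℝ) (hη : 0 < η) (hη1 : η ≤ 1) (r e : ℝ) (he : 0 < e)
    (her : e < r) (hr : r ≤ 1 / 2) :
    ∃ Q : ℝ, 1 ≤ Q ∧ ∀ δ : ℝ, 0 < δ → δ ≤ 1 →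
    ∃ P P' : Finset ℕ, (∀ p ∈ P, p.Prime ∧ P₀ ≤ p) ∧ (∀ p ∈ P', p.Prime ∧ P₀ ≤ p) ∧
      W₀ ≤ WW P ∧ W₀ ≤ WW P' ∧
      ∀ β : ℝ, ∃ φ : ℝ → ℝ, (∀ x, φ x ≤ 1) ∧ (∀ x, φ x ≠ 0 → nd (x - β) ≤ r) ∧
          ∀ y, Sq Q δ y → (2 * (r - e) - η) * (WW P * WW P') ≤
            ∑ z ∈ P ×ˢ P', 1 / ((z.1 : ℝ) * z.2) * φ ((z.1 : ℝ) * z.2 * y) := by
  obtain ⟨B, hB, hmain⟩ := equiq (σ := Unit) (fun _ => 1) (fun _ => le_rfl) P₀ W₀ η hη hη1
  obtain ⟨R, hR⟩ : ∃ R : ℝ, R = 1 / e := ⟨_, rfl⟩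
  have hR1 : 1 ≤ R := by rw [hR, le_div_iff₀ he]; linarith
  have hRe : 1 / R = e := by rw [hR, one_div_one_div]
  have hBr : (1 : ℝ) ≤ B := by exact_mod_cast hB
  refine ⟨B * R ^ B, ?_, fun δ hδ hδ1 => ?_⟩
  · have := one_le_pow₀ hR1 (n := B)
    nlinarith
  obtain ⟨P, P', hP, hP', hW, hW', hE⟩ := hmain R hR1 δ hδ hδ1
  refine ⟨P, P', fun p hp => ⟨(hP p hp).1, (hP p hp).2.1⟩, fun p hp => ⟨(hP' p hp).1,
    (hP' p hp).2.1⟩, hW, hW', fun β => ?_⟩
  obtain ⟨φ, hφc, hφ0, hφ1, hφL, hφs, hφi⟩ := bump (σ := Unit) {x : Unit → ℝ |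
        nd (x () - β) ≤ r} R hR1
  have hint : 2 * (r - e) ≤ ∫ x in Set.Icc (0 : Unit → ℝ) 1, φ x := by
    refine le_trans ?_ hφi
    rw [hRe]
    have hmp := volume_preserving_funUnique Unit ℝ
    obtain ⟨Bd, hBd⟩ : ∃ Bd : Set ℝ, Bd = {y : ℝ | y ∈ Set.Icc (0 : ℝ) 1 ∧ nd (y - β) ≤ r - e} :=
      ⟨_, rfl⟩
    have hpre : volume ((MeasurableEquiv.funUnique Unit ℝ) ⁻¹' Bd) = volume Bd :=
      hmp.measure_preimage_equiv Bd
    have hone : volume (Set.Icc (0 : Unit → ℝ) 1) = 1 := by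
      rw [Real.volume_Icc_pi]; simp
    obtain ⟨T, hT⟩ : ∃ T : Set (Unit → ℝ), T = {x : Unit → ℝ | x ∈ Set.Icc (0 : Unit → ℝ) 1 ∧
      ∀ y : Unit → ℝ, (∀ s, |y s - x s| ≤ e) →
      ∃ z : Unit → ℤ, (fun s => y s + z s) ∈ {x : Unit → ℝ | nd (x () - β) ≤ r}} := ⟨_, rfl⟩
    rw [← hT]
    have hTf : volume T ≠ ⊤ := by
      have : volume T ≤ 1 := by
        rw [← hone, hT]; exact measure_mono fun x hx => hx.1
      exact ne_top_of_le_ne_top ENNReal.one_ne_top this
    have hsub : (MeasurableEquiv.funUnique Unit ℝ) ⁻¹' Bd ⊆ T := by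
      intro x hx
      rw [hBd] at hx
      have hx' : x () ∈ Set.Icc (0 : ℝ) 1 ∧ nd (x () - β) ≤ r - e := hx
      rw [hT]
      refine ⟨⟨fun _ => hx'.1.1, fun _ => hx'.1.2⟩, fun y hy => ⟨0, ?_⟩⟩
      have h2 := nd_le_add_abs (y () - β) (x () - β)
      have h3 := hy ()
      have e1 : y () - β - (x () - β) = y () - x () := by ring
      rw [e1] at h2
      have h4 : nd (y () - β) ≤ r := by linarith [hx'.2]
      simpa using h4
    have h1 := arc_vol β (r - e) (by linarith) (by linarith)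
    rw [← hBd, ← hpre] at h1
    have h2 := h1.trans (measure_mono hsub)
    rw [ENNReal.ofReal_le_iff_le_toReal hTf] at h2
    exact h2
  refine ⟨fun x => φ fun _ => x, fun x => hφ1 _, fun x hx => ?_, fun y hy => ?_⟩
  · obtain ⟨z, hz⟩ := hφs _ hx
    have e1 : nd (x + (z () : ℝ) - β) ≤ r := hz
    have e2 : x + (z () : ℝ) - β = x - β + z () := by ring
    rw [e2, nd_add_int] at e1
    exact e1
  · have hM : Mnr (fun _ : Unit => 1) (B * R ^ B) δ (fun _ => y) := by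
      intro k hk hkQ _ m
      have hk0 : k () ≠ 0 := fun h => hk (by funext s; exact h)
      have h2 := hy (k ()).natAbs (by omega) (by
        have := hkQ ()
        rw [Nat.cast_natAbs]
        push_cast
        exact this)
      have h3 : nd (((k ()).natAbs : ℝ) * y) = nd ((k () : ℝ) * y) := by
        rw [Nat.cast_natAbs]
        push_cast
        rcases abs_cases (k () : ℝ) with ⟨h, _⟩ | ⟨h, _⟩
        · rw [h]
        · rw [h, neg_mul, nd_neg]
      rw [h3] at h2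
      refine h2.trans ((nd_le _ m).trans (le_of_eq ?_))
      simp
    have h4 := hE (fun _ => y) hM φ hφc hφ0 hφ1 hφL
    refine le_trans ?_ (h4.trans (le_of_eq ?_))
    · apply mul_le_mul_of_nonneg_right _ (mul_nonneg (WW_nonneg _) (WW_nonneg _))
      linarith
    · refine sum_congr rfl fun z _ => ?_
      congr 2
      funext s
      rw [pow_one]

/-- the log density of the level set, from windows to points -/
lemma bf_sum (a : ℕ → ℂ) (β c : ℝ) (H N K : ℕ) (hK : 0 < K) :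
    ∑ n ∈ Icc 1 N, (1 / (n : ℝ)) * Bf a β c H n K ≤
      ∑ n ∈ Icc 1 N, (1 / (n : ℝ)) * bad a β c H n + (2 + Real.log K + K) := by
  have hKr : (0 : ℝ) < K := by exact_mod_cast hK
  have hb0 := bad_nonneg a β c H
  have hb1 := bad_le_one a β c H
  have hlogK : 0 ≤ Real.log K := Real.log_nonneg (by exact_mod_cast hK)
  have h1 : ∀ n, Bf a β c H n K = ∑ j ∈ range K, (1 / (K : ℝ)) * bad a β c H (n + j) := by
    intro n
    rw [Bf, sum_Ico_eq_sum_range, Nat.add_sub_cancel_left, ← mul_sum, one_div, div_eq_inv_mul]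
  have h2 : ∀ j ∈ range K, ∑ n ∈ Icc 1 N, (1 / (n : ℝ)) * bad a β c H (n + j) ≤
      ∑ n ∈ Icc 1 N, (1 / (n : ℝ)) * bad a β c H n + (2 + Real.log K + K) := by
    intro j hj
    rw [mem_range] at hj
    have hjK : (j : ℝ) ≤ K := by exact_mod_cast hj.le
    -- compare `1 / n` with `1 / (n + j)`
    have h3 : ∑ n ∈ Icc 1 N, (1 / (n : ℝ)) * bad a β c H (n + j) ≤
        ∑ n ∈ Icc 1 N, (1 / ((n + j : ℕ) : ℝ)) * bad a β c H (n + j) +
        ∑ n ∈ Icc 1 N, (1 / (n : ℝ) - 1 / ((n + j : ℕ) : ℝ)) := by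
      rw [← sum_add_distrib]
      refine sum_le_sum fun n hn => ?_
      rw [mem_Icc] at hn
      have hn0 : (0 : ℝ) < n := by exact_mod_cast hn.1
      have h4 : 0 ≤ 1 / (n : ℝ) - 1 / ((n + j : ℕ) : ℝ) := by
        rw [sub_nonneg]
        apply one_div_le_one_div_of_le hn0
        push_cast
        linarith [Nat.cast_nonneg (α := ℝ) j]
      have := hb1 (n + j)
      nlinarith
    have h4 : ∑ n ∈ Icc 1 N, (1 / (n : ℝ) - 1 / ((n + j : ℕ) : ℝ)) ≤ 1 + Real.log K := by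
      have e : ∑ n ∈ Icc 1 N, (1 / (n : ℝ) - 1 / ((n + j : ℕ) : ℝ)) =
          ∑ n ∈ Icc 1 j, 1 / (n : ℝ) - ∑ n ∈ Ioc N (N + j), 1 / (n : ℝ) := by
        rw [sum_sub_distrib]
        have e1 : ∀ T : ℕ, Icc 1 T = Ioc 0 T := by
          intro T; ext x; rw [mem_Icc, mem_Ioc]; omega
        have e2 : ∑ n ∈ Icc 1 N, 1 / ((n + j : ℕ) : ℝ) = ∑ n ∈ Ioc j (N + j), 1 / (n : ℝ) := by
          rw [e1]
          have := sum_image (s := Ioc 0 N) (g := fun n => n + j)
            (f := fun n : ℕ => 1 / (n : ℝ)) (fun a _ b _ h => by simpa using h)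
          rw [← this]
          congr 1
          ext x
          simp only [mem_image, mem_Ioc]
          constructor
          · rintro ⟨k, hk, rfl⟩; omega
          · intro hx; exact ⟨x - j, by omega, by omega⟩
        rw [e2, e1, e1]
        have h5 := sum_Ioc_consecutive (fun n : ℕ => 1 / (n : ℝ)) (m := 0) (n := N) (k := N + j)
          (by omega) (by omega)
        have h6 := sum_Ioc_consecutive (fun n : ℕ => 1 / (n : ℝ)) (m := 0) (n := j) (k := N + j)
          (by omega) (by omega)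
        linarith
      rw [e]
      have h5 : 0 ≤ ∑ n ∈ Ioc N (N + j), 1 / (n : ℝ) := sum_nonneg fun _ _ => by positivity
      have h6 : ∑ n ∈ Icc 1 j, 1 / (n : ℝ) ≤ ∑ n ∈ Icc 1 K, 1 / (n : ℝ) :=
        sum_le_sum_of_subset_of_nonneg (Icc_subset_Icc le_rfl hj.le) fun _ _ _ => by positivity
      have h7 := sum_inv_le_log K
      linarith
    have h5 : ∑ n ∈ Icc 1 N, (1 / ((n + j : ℕ) : ℝ)) * bad a β c H (n + j) ≤
        ∑ n ∈ Icc 1 N, (1 / (n : ℝ)) * bad a β c H n + K := by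
      have e2 : ∑ n ∈ Icc 1 N, (1 / ((n + j : ℕ) : ℝ)) * bad a β c H (n + j) =
          ∑ n ∈ (Icc 1 N).image (fun n => n + j), (1 / (n : ℝ)) * bad a β c H n := by
        rw [sum_image (fun a _ b _ h => by simpa using h)]
      rw [e2]
      have hsub : (Icc 1 N).image (fun n => n + j) ⊆ Icc 1 N ∪ Ioc N (N + j) := by
        intro x hx
        simp only [mem_image, mem_Icc] at hx
        obtain ⟨k, hk, rfl⟩ := hx
        simp only [mem_union, mem_Icc, mem_Ioc]
        omega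
      refine (sum_le_sum_of_subset_of_nonneg hsub fun n _ _ =>
        mul_nonneg (by positivity) (hb0 n)).trans ?_
      rw [sum_union (by
        rw [disjoint_left]
        intro x hx hx'
        rw [mem_Icc] at hx
        rw [mem_Ioc] at hx'
        omega)]
      refine add_le_add le_rfl ?_
      calc ∑ n ∈ Ioc N (N + j), (1 / (n : ℝ)) * bad a β c H n ≤ ∑ n ∈ Ioc N (N + j), (1 : ℝ) := by
            refine sum_le_sum fun n hn => ?_
            rw [mem_Ioc] at hn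
            have hn1 : (1 : ℝ) ≤ n := by
              have : 1 ≤ n := by omega
              exact_mod_cast this
            refine mul_le_one₀ ?_ (hb0 n) (hb1 n)
            rw [div_le_one (by linarith)]
            exact hn1
        _ = j := by simp
        _ ≤ K := hjK
    linarith
  calc ∑ n ∈ Icc 1 N, (1 / (n : ℝ)) * Bf a β c H n K
      = ∑ j ∈ range K, (1 / (K : ℝ)) * ∑ n ∈ Icc 1 N, (1 / (n : ℝ)) * bad a β c H (n + j) := by
        simp only [h1, mul_sum]
        rw [sum_comm]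
        exact sum_congr rfl fun j _ => sum_congr rfl fun n _ => by ring
    _ ≤ ∑ j ∈ range K, (1 / (K : ℝ)) *
        (∑ n ∈ Icc 1 N, (1 / (n : ℝ)) * bad a β c H n + (2 + Real.log K + K)) :=
        sum_le_sum fun j hj => mul_le_mul_of_nonneg_left (h2 j hj) (by positivity)
    _ = _ := by
        rw [sum_const, card_range, nsmul_eq_mul]
        field_simp

end Pool.Agent.XS
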