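import Mathlib
import Pool.Agent.Lib.XS.T1b

/-!
# Outside the major arcs: the exceptional set of one linear phase on short blocks
-/

set_option autoImplicit false
open Finset MeasureTheory

namespace Pool.Agent.XS

open Pool.Agent.Lib.MP_663568_nt Pool.Agent.Lib.MP_663568_nt.Katai
  Pool.Agent.Lib.MP_663568_nt.Nul Pool.Agent.Lib.MP_663568_nt.H6 Pool.Agent.Lib.MP_663568_dch

/-- the (unnormalised) logarithmic density of the level set -/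
noncomputable def SB (a : ℕ → ℂ) (β c : ℝ) (H N : ℕ) : ℝ :=
  ∑ n ∈ Icc 1 N, (1 / (n : ℝ)) * bad a β c H n

lemma SB_nonneg (a : ℕ → ℂ) (β c : ℝ) (H N : ℕ) : 0 ≤ SB a β c H N :=
  sum_nonneg fun _ _ => mul_nonneg (by positivity) (bad_nonneg _ _ _ _ _)

/-- **A fixed length.** -/
theorem fixed_len (κ ζ : ℝ) (hκ : 0 < κ) (hζ : 0 < ζ) (hζ1 : ζ ≤ 1) (H : ℕ) (hH : 1 ≤ H)
    (hκH : κ / H ≤ 1 / 2) :
    ∃ Q : ℝ, 1 ≤ Q ∧ ∀ δ : ℝ, 0 < δ → δ ≤ 1 → ∃ (L : ℕ) (C : ℝ), 1 ≤ L ∧ 0 ≤ C ∧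
      ∀ a : ℕ → ℂ, (∀ n, ‖a n‖ ≤ 1) → Mult a → ∀ β c : ℝ, 0 ≤ c → ∀ T : Set ℝ,
      (∀ y ∈ T, Sq Q δ y) → ∀ N : ℕ,
      ∑ n ∈ Icc 1 N, (1 / (n : ℝ)) * GS ph a T L n ≤
        L * ((c + Real.pi * κ / 2 + ζ) * (1 + Real.log N) +
          (1 + ζ) * (H / (2 * κ)) * (SB a β c H N + C)) := by
  have hHr : (0 : ℝ) < H := by exact_mod_cast hH
  obtain ⟨r, hr⟩ : ∃ r : ℝ, r = κ / H := ⟨_, rfl⟩
  have hr0 : 0 < r := by rw [hr]; positivity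
  rw [← hr] at hκH
  obtain ⟨η, hη⟩ : ∃ η : ℝ, η = r * ζ / 8 := ⟨_, rfl⟩
  have hη0 : 0 < η := by rw [hη]; positivity
  have hηr : η ≤ r / 8 := by rw [hη]; nlinarith
  obtain ⟨P₀, hP₀⟩ : ∃ P₀ : ℕ, P₀ = ⌈8 / η⌉₊ := ⟨_, rfl⟩
  have hP₀8 : 8 / η ≤ P₀ := by rw [hP₀]; exact Nat.le_ceil _
  obtain ⟨Q, hQ, hE⟩ := equ_arc P₀ (16 / η ^ 3) η hη0 (by linarith) r η hη0 (by linarith) hκH
  refine ⟨Q, hQ, fun δ hδ hδ1 => ?_⟩
  obtain ⟨P, P', hPp, hPp', hWP, hWP', hE⟩ := hE δ hδ hδ1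
  obtain ⟨Lh, hLh⟩ := exists_longH P P' (fun p hp => (hPp p hp).1) η
  obtain ⟨Zn, hZn⟩ : ∃ Zn : ℕ, Zn = 1 + ∑ p ∈ P, p + ∑ p ∈ P', p := ⟨_, rfl⟩
  have hZ : ∀ p ∈ P, p ≤ Zn := by
    intro p hp
    have h3 : p ≤ ∑ p ∈ P, p := single_le_sum (f := fun p : ℕ => p) (fun _ _ => Nat.zero_le _) hp
    omega
  have hZ' : ∀ p ∈ P', p ≤ Zn := by
    intro p hp
    have h3 : p ≤ ∑ p ∈ P', p := single_le_sum (f := fun p : ℕ => p) (fun _ _ => Nat.zero_le _) hp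
    omega
  have hZn1 : 1 ≤ Zn := by omega
  have hzp : ∀ z ∈ P ×ˢ P', 0 < z.1 * z.2 ∧ z.1 * z.2 ≤ Zn ^ 2 := by
    intro z hz
    rw [mem_product] at hz
    refine ⟨Nat.mul_pos (hPp _ hz.1).1.pos (hPp' _ hz.2).1.pos, ?_⟩
    calc z.1 * z.2 ≤ Zn * Zn := Nat.mul_le_mul (hZ _ hz.1) (hZ' _ hz.2)
      _ = Zn ^ 2 := by ring
  obtain ⟨M, hM⟩ : ∃ M : ℕ, M = ⌈2 * (H : ℝ) / η⌉₊ + 1 := ⟨_, rfl⟩
  have hMge : 2 * (H : ℝ) / η ≤ M := by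
    rw [hM]; push_cast
    have := Nat.le_ceil (2 * (H : ℝ) / η)
    linarith
  obtain ⟨L, hL⟩ : ∃ L : ℕ, L = Lh + M * Zn ^ 2 := ⟨_, rfl⟩
  have hM1 : 1 ≤ M := by omega
  have hZn2 : 1 ≤ Zn ^ 2 := Nat.one_le_pow _ _ hZn1
  have hL1 : 1 ≤ L := by
    have : 1 ≤ M * Zn ^ 2 := Nat.mul_le_mul hM1 hZn2
    omega
  have hLz : ∀ z ∈ P ×ˢ P', M ≤ L / z.1 / z.2 := by
    intro z hz
    rw [Nat.div_div_eq_div_mul, Nat.le_div_iff_mul_le (hzp z hz).1]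
    have h1 := Nat.mul_le_mul_left M (hzp z hz).2
    omega
  have hLH := hLh L (by omega)
  have hLr : (0 : ℝ) < L := by exact_mod_cast hL1
  obtain ⟨D, hD⟩ : ∃ D : ℝ, D = 2 * (r - η) - 2 * η := ⟨_, rfl⟩
  have hD0 : 0 < D := by linarith
  obtain ⟨C, hC⟩ : ∃ C : ℝ, C = 3 + Real.log L + L + Real.log ((Zn : ℝ) ^ 2) := ⟨_, rfl⟩
  have hlogL : 0 ≤ Real.log L := Real.log_nonneg (by exact_mod_cast hL1)
  have hlogZ : 0 ≤ Real.log ((Zn : ℝ) ^ 2) := Real.log_nonneg (by exact_mod_cast hZn2)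
  have hC0 : 0 ≤ C := by rw [hC]; linarith
  refine ⟨L, C, hL1, hC0, fun a ha hmul β c hc T hT N => ?_⟩
  obtain ⟨φ, hφ1, hφs, hφy⟩ := hE β
  obtain ⟨W, hWd⟩ : ∃ W : ℝ, W = WW P * WW P' := ⟨_, rfl⟩
  have h16 : 0 < 16 / η ^ 3 := by positivity
  have hW0 : 0 < W := by rw [hWd]; exact mul_pos (by linarith) (by linarith)
  have hw : ∀ z : ℕ × ℕ, 0 ≤ 1 / ((z.1 : ℝ) * z.2) := fun z => by positivity
  have hpk : 0 ≤ Real.pi * κ / 2 := by positivity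
  obtain ⟨c', hc'⟩ : ∃ c' : ℝ, c' = c + Real.pi * κ / 2 + 3 * η := ⟨_, rfl⟩
  have hc'0 : 0 ≤ c' := by rw [hc']; positivity
  set X : ℕ → ℝ := fun n => ∑ z ∈ P ×ˢ P', 1 / ((z.1 : ℝ) * z.2) *
    Bf a β c H (n / z.1 / z.2) (L / z.1 / z.2) with hX
  have hX0 : ∀ n, 0 ≤ X n := fun n =>
    sum_nonneg fun z _ => mul_nonneg (hw z) (Bf_nonneg _ _ _ _ _ _)
  have h1 : ∀ n, GS ph a T L n ≤ L * (c' + X n / (D * W)) := by
    intro n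
    have hB : 0 ≤ L * (c' + X n / (D * W)) := by
      have := hX0 n
      positivity
    rw [GS, GG]
    apply Real.iSup_le _ hB
    rintro ⟨y, hy⟩
    have h2 := one_blk a ha hmul P P' (fun p hp => (hPp p hp).1) (fun p hp => (hPp' p hp).1) P₀
      (fun p hp => (hPp p hp).2) (fun p hp => (hPp' p hp).2) η hη0 hP₀8 hWP hWP' β κ c hκ.le hc H
      hH φ hφ1 (fun x hx => by rw [← hr]; exact hφs x hx) (2 * (r - η)) (by linarith) y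
      (hφy y (hT y hy)) n L hLH (fun z hz => hMge.trans (by exact_mod_cast hLz z hz))
    rw [← hD, ← hWd, ← hc'] at h2
    have h3 : cc a n L y - c' ≤ X n / (D * W) := by
      rw [le_div_iff₀ (by positivity)]
      linarith
    have h4 := cc_mul a n L hL1 y
    change ws (ph y) a n L ≤ _
    rw [h4, mul_comm (L : ℝ)]
    exact mul_le_mul_of_nonneg_right (by linarith) hLr.le
  have h2 : ∀ z ∈ P ×ˢ P', ∑ n ∈ Icc 1 N, (1 / (n : ℝ)) *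
      Bf a β c H (n / z.1 / z.2) (L / z.1 / z.2) ≤ SB a β c H N + C := by
    intro z hz
    have e : ∀ n : ℕ, n / z.1 / z.2 = n / (z.1 * z.2) := fun n => Nat.div_div_eq_div_mul _ _ _
    have hK : 0 < L / z.1 / z.2 := lt_of_lt_of_le (by omega) (hLz z hz)
    have hKL : L / z.1 / z.2 ≤ L := by
      rw [e]; exact Nat.div_le_self _ _
    have h3 := log_upper (z.1 * z.2) (hzp z hz).1 (fun m => Bf a β c H m (L / z.1 / z.2)) 1
      (fun m => Bf_nonneg _ _ _ _ _ _) (fun m => Bf_le_one _ _ _ _ _ _) N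
    have h4 := bf_sum a β c H N (L / z.1 / z.2) hK
    have h5 : Real.log ((z.1 * z.2 : ℕ) : ℝ) ≤ Real.log ((Zn : ℝ) ^ 2) := by
      apply Real.log_le_log (by exact_mod_cast (hzp z hz).1)
      exact_mod_cast (hzp z hz).2
    have h6 : Real.log ((L / z.1 / z.2 : ℕ) : ℝ) ≤ Real.log L := by
      apply Real.log_le_log (by exact_mod_cast hK)
      exact_mod_cast hKL
    have h7 : ((L / z.1 / z.2 : ℕ) : ℝ) ≤ L := by exact_mod_cast hKL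
    have h8 : ∑ n ∈ Icc 1 N, (1 / (n : ℝ)) * Bf a β c H (n / z.1 / z.2) (L / z.1 / z.2) =
        ∑ n ∈ Icc 1 N, (1 / (n : ℝ)) * (fun m => Bf a β c H m (L / z.1 / z.2)) (n / (z.1 * z.2)) :=
      sum_congr rfl fun n _ => by rw [e]
    rw [h8, SB, hC]
    linarith
  have h3 : ∑ n ∈ Icc 1 N, (1 / (n : ℝ)) * X n ≤ W * (SB a β c H N + C) := by
    have e1 : ∑ n ∈ Icc 1 N, (1 / (n : ℝ)) * X n = ∑ z ∈ P ×ˢ P', 1 / ((z.1 : ℝ) * z.2) *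
        ∑ n ∈ Icc 1 N, (1 / (n : ℝ)) * Bf a β c H (n / z.1 / z.2) (L / z.1 / z.2) := by
      simp only [hX, mul_sum]
      rw [sum_comm]
      exact sum_congr rfl fun z _ => sum_congr rfl fun n _ => by ring
    have e2 : ∑ z ∈ P ×ˢ P', 1 / ((z.1 : ℝ) * z.2) = W := by
      rw [hWd, WW, WW, sum_mul_sum, ← sum_product']
      exact sum_congr rfl fun z _ => by rw [one_div_mul_one_div]
    rw [e1, ← e2, sum_mul]
    exact sum_le_sum fun z hz => mul_le_mul_of_nonneg_left (h2 z hz) (hw z)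
  have hSC : 0 ≤ SB a β c H N + C := add_nonneg (SB_nonneg _ _ _ _ _) hC0
  have h4 : 1 / D ≤ (1 + ζ) * (H / (2 * κ)) := by
    have e : (H : ℝ) / (2 * κ) = 1 / (2 * r) := by rw [hr]; field_simp
    rw [e, mul_one_div, div_le_div_iff₀ hD0 (by positivity), hD, hη]
    have : 0 ≤ r * (ζ - ζ ^ 2) := mul_nonneg hr0.le (by nlinarith)
    nlinarith
  have h5 : ∑ n ∈ Icc 1 N, (1 / (n : ℝ)) * GS ph a T L n ≤
      ∑ n ∈ Icc 1 N, (1 / (n : ℝ)) * (L * (c' + X n / (D * W))) :=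
    sum_le_sum fun n _ => mul_le_mul_of_nonneg_left (h1 n) (by positivity)
  have e3 : ∑ n ∈ Icc 1 N, (1 / (n : ℝ)) * (L * (c' + X n / (D * W))) =
      L * (c' * ∑ n ∈ Icc 1 N, (1 / (n : ℝ)) +
        1 / D * (1 / W * ∑ n ∈ Icc 1 N, (1 / (n : ℝ)) * X n)) := by
    rw [mul_add, mul_sum, mul_sum, mul_sum, mul_sum, mul_sum, ← sum_add_distrib]
    refine sum_congr rfl fun n _ => ?_
    field_simp
  rw [e3] at h5
  refine h5.trans (mul_le_mul_of_nonneg_left (add_le_add ?_ ?_) hLr.le)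
  · have h6 := sum_inv_le_log N
    have h7 : 0 ≤ ∑ n ∈ Icc 1 N, (1 / (n : ℝ)) := sum_nonneg fun _ _ => by positivity
    have h8 : c' ≤ c + Real.pi * κ / 2 + ζ := by
      rw [hc']
      nlinarith
    calc c' * ∑ n ∈ Icc 1 N, (1 / (n : ℝ)) ≤ c' * (1 + Real.log N) :=
          mul_le_mul_of_nonneg_left h6 hc'0
      _ ≤ _ := mul_le_mul_of_nonneg_right h8 (h7.trans h6)
  · have h6 : 1 / W * ∑ n ∈ Icc 1 N, (1 / (n : ℝ)) * X n ≤ SB a β c H N + C := by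
      rw [one_div, inv_mul_le_iff₀ hW0]
      exact h3
    calc 1 / D * (1 / W * ∑ n ∈ Icc 1 N, (1 / (n : ℝ)) * X n) ≤ 1 / D * (SB a β c H N + C) :=
          mul_le_mul_of_nonneg_left h6 (by positivity)
      _ ≤ _ := mul_le_mul_of_nonneg_right h4 hSC

end Pool.Agent.XS
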