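import Mathlib
import Pool.Agent.Lib.XS.T1c
import Pool.Agent.Lib.MP_663568_dch.MinorA

/-!
# Outside the major arcs: all lengths
-/

set_option autoImplicit false
open Finset MeasureTheory

namespace Pool.Agent.XS

open Pool.Agent.Lib.MP_663568_nt Pool.Agent.Lib.MP_663568_nt.Katai
  Pool.Agent.Lib.MP_663568_nt.Nul Pool.Agent.Lib.MP_663568_nt.H6 Pool.Agent.Lib.MP_663568_dch

/-- the constants -/
lemma num_fin (ζ A₁ c G C J L H lN SB E : ℝ) (hζ : 0 < ζ) (hζ1 : ζ ≤ 1) (hA : c + ζ / 8 ≤ A₁)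
    (hc : 0 ≤ c) (hG : 0 ≤ G) (hC : 0 ≤ C) (hJ : 8 * (A₁ + 1) / ζ ≤ J) (hL : 0 < L)
    (hLH : L ≤ ζ / 16 * H) (hSB : 0 ≤ SB)
    (hlN : 8 / ζ * (2 * (A₁ + 2 * G * C + 1)) + 1 ≤ lN)
    (hE : E ≤ L * ((c + ζ / 8) * (1 + lN) + (1 + ζ / 8) * G * (SB + C))) :
    ζ / 8 * H * (1 + lN) + ((H / L) * ((1 + 1 / J) * (E + L)) + L * (1 + lN)) ≤
      ((c + ζ) * lN + (1 + ζ) * G * SB) * H := by
  have hA0 : 0 ≤ A₁ := by linarith
  have hH : 0 < H := by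
    by_contra hcon
    push Not at hcon
    nlinarith
  have hJ0 : 0 < J := lt_of_lt_of_le (by positivity) hJ
  have hGC : 0 ≤ G * C := mul_nonneg hG hC
  have hl1 : 1 ≤ lN := by
    have : 0 ≤ 8 / ζ * (2 * (A₁ + 2 * G * C + 1)) := by
      have : 0 ≤ 2 * G * C := by nlinarith
      positivity
    linarith
  have hJi : 1 / J * (A₁ + 1) ≤ ζ / 8 := by
    rw [div_le_iff₀ hζ] at hJ
    rw [one_div, inv_mul_le_iff₀ hJ0]
    linarith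
  have hJi0 : 0 < 1 / J := by positivity
  have hJ8 : 1 / J ≤ ζ / 8 := by nlinarith
  have h1 : (H / L) * ((1 + 1 / J) * (E + L)) ≤
      H * ((1 + 1 / J) * ((c + ζ / 8) * (1 + lN) + (1 + ζ / 8) * G * (SB + C) + 1)) := by
    have h2 : E + L ≤ L * ((c + ζ / 8) * (1 + lN) + (1 + ζ / 8) * G * (SB + C) + 1) := by linarith
    calc (H / L) * ((1 + 1 / J) * (E + L)) ≤ (H / L) * ((1 + 1 / J) *
          (L * ((c + ζ / 8) * (1 + lN) + (1 + ζ / 8) * G * (SB + C) + 1))) := by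
          gcongr
      _ = _ := by field_simp
  have hGS : 0 ≤ G * SB := mul_nonneg hG hSB
  have h2 : (1 + 1 / J) * ((c + ζ / 8) * (1 + lN) + (1 + ζ / 8) * G * (SB + C) + 1) ≤
      (c + ζ / 4) * lN + (1 + ζ) * (G * SB) + 2 * (A₁ + 2 * G * C + 1) := by
    have a1 : (1 + 1 / J) * (c + ζ / 8) ≤ c + ζ / 4 := by
      have : 1 / J * (c + ζ / 8) ≤ 1 / J * (A₁ + 1) :=
        mul_le_mul_of_nonneg_left (by linarith) hJi0.le
      linarith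
    have a2 : (1 + 1 / J) * (1 + ζ / 8) ≤ 1 + ζ := by nlinarith
    have a3 : 1 + 1 / J ≤ 2 := by linarith
    have a4 : (1 + 1 / J) * ((c + ζ / 8) * lN) ≤ (c + ζ / 4) * lN := by
      have := mul_le_mul_of_nonneg_right a1 (by linarith : (0 : ℝ) ≤ lN)
      linarith
    have a5 : (1 + 1 / J) * ((1 + ζ / 8) * (G * SB)) ≤ (1 + ζ) * (G * SB) := by
      have := mul_le_mul_of_nonneg_right a2 hGS
      linarith
    have a6 : (1 + 1 / J) * ((c + ζ / 8) + (1 + ζ / 8) * (G * C) + 1) ≤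
        2 * (A₁ + 2 * G * C + 1) := by
      have b1 : (1 + ζ / 8) * (G * C) ≤ 2 * (G * C) :=
        mul_le_mul_of_nonneg_right (by linarith) hGC
      have b2 : 0 ≤ (c + ζ / 8) + (1 + ζ / 8) * (G * C) + 1 := by positivity
      calc _ ≤ 2 * ((c + ζ / 8) + (1 + ζ / 8) * (G * C) + 1) :=
            mul_le_mul_of_nonneg_right a3 b2
        _ ≤ _ := by linarith
    calc _ = (1 + 1 / J) * ((c + ζ / 8) * lN) + (1 + 1 / J) * ((1 + ζ / 8) * (G * SB)) +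
          (1 + 1 / J) * ((c + ζ / 8) + (1 + ζ / 8) * (G * C) + 1) := by ring
      _ ≤ _ := by linarith
  have h3 : 2 * (A₁ + 2 * G * C + 1) ≤ ζ / 8 * lN := by
    have h4 : 8 / ζ * (2 * (A₁ + 2 * G * C + 1)) ≤ lN := by linarith
    rw [div_mul_eq_mul_div, div_le_iff₀ hζ] at h4
    linarith
  have h4 : H * ((1 + 1 / J) * ((c + ζ / 8) * (1 + lN) + (1 + ζ / 8) * G * (SB + C) + 1)) ≤
      H * ((c + ζ / 4) * lN + (1 + ζ) * (G * SB) + ζ / 8 * lN) :=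
    mul_le_mul_of_nonneg_left (by linarith) hH.le
  have h5 : L * (1 + lN) ≤ ζ / 8 * lN * H := by
    calc L * (1 + lN) ≤ ζ / 16 * H * (1 + lN) := mul_le_mul_of_nonneg_right hLH (by linarith)
      _ ≤ ζ / 16 * H * (2 * lN) := by
          apply mul_le_mul_of_nonneg_left (by linarith) (by positivity)
      _ = _ := by ring
  have h6 : ζ / 8 * H * (1 + lN) ≤ ζ / 4 * lN * H := by
    calc ζ / 8 * H * (1 + lN) ≤ ζ / 8 * H * (2 * lN) := by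
          apply mul_le_mul_of_nonneg_left (by linarith) (by positivity)
      _ = _ := by ring
  have h7 : 0 ≤ ζ * lN * H := by positivity
  nlinarith

/-- **The exceptional set of one linear phase on short blocks bounds the supremum outside the
major arcs.** -/
theorem minor_blk (κ ζ : ℝ) (hκ : 0 < κ) (hζ : 0 < ζ) (hζ1 : ζ ≤ 1) (H : ℕ) (hH : 1 ≤ H)
    (hκH : κ / H ≤ 1 / 2) :
    ∃ Q : ℝ, 1 ≤ Q ∧ ∀ δ : ℝ, 0 < δ → δ ≤ 1 → ∃ H₀ : ℕ,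
      ∀ a : ℕ → ℂ, (∀ n, ‖a n‖ ≤ 1) → Mult a → ∀ β c : ℝ, 0 ≤ c → c ≤ 1 → ∀ T : Set ℝ,
      (∀ y ∈ T, Sq Q δ y) → ∀ N H₁ : ℕ, H₀ ≤ H₁ → H₁ ≤ N →
      ∑ n ∈ Icc 1 N, (1 / (n : ℝ)) * GS ph a T H₁ n ≤
        ((c + Real.pi * κ / 2 + ζ) * Real.log N +
          (1 + ζ) * (H / (2 * κ)) * SB a β c H N) * H₁ := by
  obtain ⟨Q₁, hQ₁, hfix⟩ := fixed_len κ (ζ / 8) hκ (by positivity) (by linarith) H hH hκH
  obtain ⟨A₁, hA₁⟩ : ∃ A₁ : ℝ, A₁ = 2 + Real.pi * κ / 2 := ⟨_, rfl⟩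
  have hpk : 0 ≤ Real.pi * κ / 2 := by positivity
  obtain ⟨J, hJ⟩ : ∃ J : ℕ, J = ⌈8 * (A₁ + 1) / ζ⌉₊ := ⟨_, rfl⟩
  have hJ8 : 8 * (A₁ + 1) / ζ ≤ J := by rw [hJ]; exact Nat.le_ceil _
  have hJ0 : (0 : ℝ) < J := lt_of_lt_of_le (by rw [hA₁]; positivity) hJ8
  have hJ1 : 1 ≤ J := by exact_mod_cast hJ0
  obtain ⟨D, hD, hlow⟩ := low_range (ζ / 8) (by positivity) J
  have hDr : (1 : ℝ) ≤ D := by exact_mod_cast hD
  refine ⟨max Q₁ D, hQ₁.trans (le_max_left _ _), fun δ hδ hδ1 => ?_⟩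
  obtain ⟨L, C, hL1, hC0, hfix⟩ := hfix δ hδ hδ1
  have hHr : (0 : ℝ) < H := by exact_mod_cast hH
  obtain ⟨G, hG⟩ : ∃ G : ℝ, G = (H : ℝ) / (2 * κ) := ⟨_, rfl⟩
  have hG0 : 0 ≤ G := by rw [hG]; positivity
  obtain ⟨N₁, hN₁1, hN₁⟩ := exists_log_ge (8 / ζ * (2 * (A₁ + 2 * G * C + 1)) + 1)
  obtain ⟨H₂, hH₂⟩ : ∃ H₂ : ℕ, H₂ = ⌈(D : ℝ) / (δ * (ζ / 8))⌉₊ + ⌈16 / ζ * L⌉₊ := ⟨_, rfl⟩
  refine ⟨N₁ + H₂ + 1, fun a ha hmul β c hc hc1 T hT N H₁ hH₁ hHN => ?_⟩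
  have hLr : (0 : ℝ) < L := by exact_mod_cast hL1
  have hH₁r : (1 : ℝ) ≤ H₁ := by
    have : 1 ≤ H₁ := by omega
    exact_mod_cast this
  have hHN' : (H₁ : ℝ) ≤ N := by exact_mod_cast hHN
  have hH2r : ((D : ℝ) / (δ * (ζ / 8)) ≤ H₁) ∧ 16 / ζ * L ≤ (H₁ : ℝ) := by
    have h1 := Nat.le_ceil ((D : ℝ) / (δ * (ζ / 8)))
    have h2 := Nat.le_ceil (16 / ζ * (L : ℝ))
    have h3 : ((⌈(D : ℝ) / (δ * (ζ / 8))⌉₊ + ⌈16 / ζ * (L : ℝ)⌉₊ : ℕ) : ℝ) ≤ H₁ := by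
      rw [← hH₂]; exact_mod_cast (by omega : H₂ ≤ H₁)
    push_cast at h3
    have h4 : (0 : ℝ) ≤ ⌈(D : ℝ) / (δ * (ζ / 8))⌉₊ := Nat.cast_nonneg _
    have h5 : (0 : ℝ) ≤ ⌈16 / ζ * (L : ℝ)⌉₊ := Nat.cast_nonneg _
    constructor <;> linarith
  obtain ⟨hHD, hHL⟩ := hH2r
  have hLH : (L : ℝ) ≤ ζ / 16 * H₁ := by
    rw [div_mul_eq_mul_div, div_le_iff₀ hζ] at hHL
    linarith
  have hLHn : L ≤ H₁ := by
    have : (L : ℝ) ≤ H₁ := by nlinarith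
    exact_mod_cast this
  have hlog := hN₁ N (by omega)
  have hup := up_J a ha T H₁ L N J hL1 hLHn hHN hJ1
  have hE := hfix a ha hmul β c hc T (fun y hy => (hT y hy).mono (le_max_left _ _) le_rfl) N
  have hterm : ∀ n ∈ Ico 1 (J * H₁), (1 / (n : ℝ)) * GS ph a T H₁ n ≤
      (1 / (n : ℝ)) * (ζ / 8 * H₁) := by
    intro n hn
    rw [mem_Ico] at hn
    refine mul_le_mul_of_nonneg_left ?_ (by positivity)
    rw [GS, GG]
    apply Real.iSup_le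
    · rintro ⟨y, hy⟩
      exact hlow a ha hmul δ hδ hδ1 y ((hT y hy).mono (le_max_right _ _) le_rfl) H₁ n hHD hn.2.le
    · positivity
  have hsplit : ∑ n ∈ Icc 1 N, (1 / (n : ℝ)) * GS ph a T H₁ n ≤
      ∑ n ∈ (Ico 1 (J * H₁)).filter (fun n => n ≤ N), (1 / (n : ℝ)) * GS ph a T H₁ n +
      ∑ n ∈ Icc (J * H₁) N, (1 / (n : ℝ)) * GS ph a T H₁ n := by
    rw [← sum_union]
    · apply sum_le_sum_of_subset_of_nonneg
      · intro n hn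
        rw [mem_Icc] at hn
        rw [mem_union, mem_filter, mem_Ico, mem_Icc]
        omega
      · intro n _ _
        exact mul_nonneg (by positivity) (GS_nonneg _ _ _ _ _)
    · rw [disjoint_left]
      intro n hn hn'
      rw [mem_filter, mem_Ico] at hn
      rw [mem_Icc] at hn'
      omega
  have hshort : ∑ n ∈ (Ico 1 (J * H₁)).filter (fun n => n ≤ N), (1 / (n : ℝ)) * GS ph a T H₁ n ≤
      ζ / 8 * H₁ * (1 + Real.log N) := by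
    calc _ ≤ ∑ n ∈ (Ico 1 (J * H₁)).filter (fun n => n ≤ N), (1 / (n : ℝ)) * (ζ / 8 * H₁) :=
          sum_le_sum fun n hn => hterm n (mem_filter.mp hn).1
      _ = ζ / 8 * H₁ * ∑ n ∈ (Ico 1 (J * H₁)).filter (fun n => n ≤ N), (1 / (n : ℝ)) := by
          rw [← sum_mul, mul_comm]
      _ ≤ ζ / 8 * H₁ * (1 + Real.log N) := by
          apply mul_le_mul_of_nonneg_left _ (by positivity)
          refine le_trans ?_ (sum_inv_le_log N)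
          apply sum_le_sum_of_subset_of_nonneg
          · intro n hn
            rw [mem_filter, mem_Ico] at hn
            rw [mem_Icc]; omega
          · intro n _ _; positivity
  rw [← hG] at hE ⊢
  have hfin := num_fin ζ A₁ (c + Real.pi * κ / 2) G C J L H₁ (Real.log N) (SB a β c H N)
    (∑ m ∈ Icc 1 N, (1 / (m : ℝ)) * GS ph a T L m) hζ hζ1 (by rw [hA₁]; linarith) (by positivity)
    hG0 hC0 hJ8 hLr hLH (SB_nonneg _ _ _ _ _) hlog hE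
  linarith

end Pool.Agent.XS
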