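import Mathlib
import Pool.Agent.Lib.XS.T1d
import Pool.Agent.Lib.WC86.Sqrt
import Pool.Agent.Lib.WC86.Short

/-!
# Linear phases: the exceptional set of one frequency on short blocks
-/

set_option autoImplicit false
open Finset MeasureTheory

namespace Pool.Agent.XS

open Pool.Agent.Lib.MP_663568_nt Pool.Agent.Lib.MP_663568_nt.Katai
  Pool.Agent.Lib.MP_663568_nt.Nul Pool.Agent.Lib.MP_663568_nt.H6 Pool.Agent.Lib.MP_663568_dch

/-- `∑_{n ≤ N} (1 / n) sup_{α ∈ ℝ} |∑_{h ≤ H} μ(n + h) e(α h)|`. -/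
noncomputable def SR (N H : ℕ) : ℝ := ∑ n ∈ Icc 1 N, (1 / (n : ℝ)) *
  ⨆ α : ℝ, ‖∑ h ∈ Icc 1 H, ((ArithmeticFunction.moebius (n + h) : ℤ) : ℂ) *
    Complex.exp (2 * Real.pi * Complex.I * α * h)‖

open Classical in
/-- `∑ 1 / n` over the `n ≤ N` with `|∑_{h ≤ H} μ(n + h) e(β h)| > c H`. -/
noncomputable def Exc (β c : ℝ) (H N : ℕ) : ℝ := ∑ n ∈ Icc 1 N, 
  if c * H < ‖∑ h ∈ Icc 1 H, ((ArithmeticFunction.moebius (n + h) : ℤ) : ℂ) *
    Complex.exp (2 * Real.pi * Complex.I * β * h)‖ then 1 / (n : ℝ) else 0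

lemma ws_ph_mo (y : ℝ) (n H : ℕ) : ws (ph y) mo n H =
    ‖∑ h ∈ Icc 1 H, ((ArithmeticFunction.moebius (n + h) : ℤ) : ℂ) *
      Complex.exp (2 * Real.pi * Complex.I * y * h)‖ :=
  Pool.Agent.WC86.window_eq y H n

lemma exc_eq (β c : ℝ) (H N : ℕ) : Exc β c H N = SB mo β c H N := by
  unfold Exc SB bad
  refine sum_congr rfl fun n _ => ?_
  rw [ws_ph_mo]
  split_ifs <;> simp

lemma exc_nonneg (β c : ℝ) (H N : ℕ) : 0 ≤ Exc β c H N := by
  rw [exc_eq]; exact SB_nonneg _ _ _ _ _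

lemma sr_eq (N H : ℕ) : SR N H = ∑ n ∈ Icc 1 N, (1 / (n : ℝ)) * GG ph mo H n := by
  unfold SR GG
  refine sum_congr rfl fun n _ => ?_
  congr 1
  exact iSup_congr fun y => (ws_ph_mo y n H).symm

/-- **One scale of the arc.** -/
theorem all_kappa (κ ζ : ℝ) (hκ : 0 < κ) (hζ : 0 < ζ) (hζ1 : ζ ≤ 1) (H : ℕ) (hH : 1 ≤ H)
    (hκH : κ / H ≤ 1 / 2) :
    ∃ H₀ : ℕ, ∀ N H₁ : ℕ, H₀ ≤ H₁ → H₁ ≤ N → ∀ β c : ℝ, 0 ≤ c → c ≤ 1 →
      SR N H₁ ≤ ((c + Real.pi * κ / 2 + ζ) * Real.log N +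
          (1 + ζ) * (H / (2 * κ)) * Exc β c H N) * H₁ := by
  obtain ⟨Q, hQ, hmin⟩ := minor_blk κ (ζ / 2) hκ (by positivity) (by linarith) H hH hκH
  obtain ⟨d, hd0, hd1, H₂, hmaj⟩ := Pool.Agent.WC86.major Pool.Agent.WC86.muAP_top (ζ / 2) Q
    (by positivity)
  obtain ⟨H₃, hmin⟩ := hmin d hd0 hd1
  refine ⟨max H₂ H₃, fun N H₁ hH₁ hN β c hc hc1 => ?_⟩
  have h1 := hmin mo norm_mo_le mult_mo β c hc hc1 {y | Sq Q d y} (fun y hy => hy) N H₁
    ((le_max_right _ _).trans hH₁) hN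
  have h2 := hmaj H₁ N ((le_max_left _ _).trans hH₁) hN
  have h3 : ∀ n, GG ph mo H₁ n ≤ GS ph mo {y | Sq Q d y} H₁ n +
      GS Pool.Agent.WC86.lin Pool.Agent.WC86.mu (Pool.Agent.WC86.Maj Q d) H₁ n := by
    intro n
    have ha := GS_nonneg ph mo {y | Sq Q d y} H₁ n
    have hb := GS_nonneg Pool.Agent.WC86.lin Pool.Agent.WC86.mu (Pool.Agent.WC86.Maj Q d) H₁ n
    refine Real.iSup_le (fun y => ?_) (add_nonneg ha hb)
    by_cases hy : Sq Q d y
    · have := ws_le_GS ph mo norm_ph norm_mo_le {y | Sq Q d y} H₁ n y hy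
      have h4 : ws (ph y) mo n H₁ = ‖∑ h ∈ Icc 1 H₁, ph y (n + h) * mo (n + h)‖ := rfl
      linarith
    · have hy' : y ∈ Pool.Agent.WC86.Maj Q d := by
        rw [Sq] at hy
        push Not at hy
        obtain ⟨q, hq1, hq2, hq3⟩ := hy
        obtain ⟨b, hb⟩ := nd_exists ((q : ℝ) * y)
        exact ⟨q, hq1, hq2, b, by rw [← hb]; exact hq3⟩
      have := ws_le_GS Pool.Agent.WC86.lin Pool.Agent.WC86.mu Pool.Agent.WC86.Maj2.norm_lin
        Pool.Agent.WC86.Maj2.norm_mu_le (Pool.Agent.WC86.Maj Q d) H₁ n y hy'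
      have h4 : ws (Pool.Agent.WC86.lin y) Pool.Agent.WC86.mu n H₁ =
        ‖∑ h ∈ Icc 1 H₁, ph y (n + h) * mo (n + h)‖ := rfl
      linarith
  have h4 : SR N H₁ ≤ ∑ n ∈ Icc 1 N, (1 / (n : ℝ)) * GS ph mo {y | Sq Q d y} H₁ n +
      ∑ n ∈ Icc 1 N, (1 / (n : ℝ)) *
        GS Pool.Agent.WC86.lin Pool.Agent.WC86.mu (Pool.Agent.WC86.Maj Q d) H₁ n := by
    rw [sr_eq, ← sum_add_distrib]
    refine sum_le_sum fun n _ => ?_
    rw [← mul_add]
    exact mul_le_mul_of_nonneg_left (h3 n) (by positivity)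
  rw [← exc_eq] at h1
  have h5 : (1 + ζ / 2) * (H / (2 * κ)) * Exc β c H N * H₁ ≤
      (1 + ζ) * (H / (2 * κ)) * Exc β c H N * H₁ := by
    have := exc_nonneg β c H N
    gcongr
    linarith
  linarith

/-- **The inequality.** -/
theorem inequality (ε : ℝ) (hε : 0 < ε) (H : ℕ) (hH : 1 ≤ H) :
    ∃ H₀ : ℕ, ∀ N H₁ : ℕ, H₀ ≤ H₁ → H₁ ≤ N → ∀ β c : ℝ, 0 ≤ c →
      SR N H₁ ≤ (c + √(Real.pi * H * (Exc β c H N / Real.log N)) + ε) * H₁ * Real.log N := by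
  have hpi := Real.pi_gt_three
  have hpi4 := Real.pi_lt_d2
  obtain ⟨e, he⟩ : ∃ e : ℝ, e = min ε 1 := ⟨_, rfl⟩
  have he0 : 0 < e := by rw [he]; positivity
  have he1 : e ≤ 1 := by rw [he]; exact min_le_right _ _
  have heε : e ≤ ε := by rw [he]; exact min_le_left _ _
  have hHr : (1 : ℝ) ≤ H := by exact_mod_cast hH
  obtain ⟨M, hM⟩ : ∃ M : ℕ, M = ⌊4 / e⌋₊ + 1 := ⟨_, rfl⟩
  -- the grid
  have hgrid : ∀ i : ℕ, ∃ H₀ : ℕ, i + 1 ≤ M → ∀ N H₁ : ℕ, H₀ ≤ H₁ → H₁ ≤ N → ∀ β c : ℝ, 0 ≤ c →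
      c ≤ 1 → SR N H₁ ≤ ((c + (i + 1) * (e / 8) + e / 8) * Real.log N +
          (1 + e / 8) * (Real.pi / 4 * H / ((i + 1) * (e / 8))) * Exc β c H N) * H₁ := by
    intro i
    by_cases hi : i + 1 ≤ M
    · have hir : ((i : ℝ) + 1) ≤ 4 / e + 1 := by
        have h1 : ((i + 1 : ℕ) : ℝ) ≤ M := by exact_mod_cast hi
        have h2 := Nat.floor_le (by positivity : 0 ≤ 4 / e)
        rw [hM] at h1
        push_cast at h1
        linarith
      have h3 : ((i : ℝ) + 1) * (e / 8) ≤ 5 / 8 := by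
        calc ((i : ℝ) + 1) * (e / 8) ≤ (4 / e + 1) * (e / 8) :=
              mul_le_mul_of_nonneg_right hir (by positivity)
          _ = 1 / 2 + e / 8 := by field_simp; ring
          _ ≤ _ := by linarith
      have hi0 : (0 : ℝ) < (i : ℝ) + 1 := by positivity
      obtain ⟨κ, hκ⟩ : ∃ κ : ℝ, κ = 2 * (((i : ℝ) + 1) * (e / 8)) / Real.pi := ⟨_, rfl⟩
      have hκ0 : 0 < κ := by rw [hκ]; positivity
      have hκ1 : κ / H ≤ 1 / 2 := by
        rw [div_le_iff₀ (by linarith), hκ, div_le_iff₀ Real.pi_pos]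
        nlinarith
      obtain ⟨H₀, h⟩ := all_kappa κ (e / 8) hκ0 (by positivity) (by linarith) H hH hκ1
      refine ⟨H₀, fun _ N H₁ hH₁ hN β c hc hc1 => ?_⟩
      have h4 := h N H₁ hH₁ hN β c hc hc1
      have e1 : Real.pi * κ / 2 = ((i : ℝ) + 1) * (e / 8) := by rw [hκ]; field_simp
      have e2 : (H : ℝ) / (2 * κ) = Real.pi / 4 * H / (((i : ℝ) + 1) * (e / 8)) := by
        rw [hκ]; field_simp; ring
      rw [e1, e2] at h4
      exact h4
    · exact ⟨0, fun h => absurd h hi⟩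
  choose H₀ hH₀ using hgrid
  obtain ⟨N₁, hN₁1, hN₁⟩ := exists_log_ge (1 / e)
  refine ⟨N₁ + ∑ i ∈ range M, H₀ i + 1, fun N H₁ hH₁ hN β c hc => ?_⟩
  have hlog := hN₁ N (by omega)
  have hlN : 0 < Real.log N := lt_of_lt_of_le (by positivity) hlog
  obtain ⟨lN, hlNd⟩ : ∃ lN : ℝ, lN = Real.log N := ⟨_, rfl⟩
  have hX0 := exc_nonneg β c H N
  obtain ⟨X, hX⟩ : ∃ X : ℝ, X = Exc β c H N := ⟨_, rfl⟩
  rw [← hX] at hX0 ⊢
  rw [← hlNd] at hlog hlN ⊢
  have hH₁r : (0 : ℝ) ≤ H₁ := Nat.cast_nonneg _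
  obtain ⟨s, hs⟩ : ∃ s : ℝ, s = √(Real.pi * H * (X / lN)) / 2 := ⟨_, rfl⟩
  have hs0 : 0 ≤ s := by rw [hs]; positivity
  have hs2 : √(Real.pi * H * (X / lN)) = 2 * s := by rw [hs]; ring
  have hsq : s ^ 2 * 4 * lN = Real.pi * H * X := by
    have h1 : √(Real.pi * H * (X / lN)) ^ 2 = Real.pi * H * (X / lN) :=
      Real.sq_sqrt (by positivity)
    rw [hs2] at h1
    have h2 : (2 * s) ^ 2 * lN = Real.pi * H * X := by rw [h1]; field_simp
    linarith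
  rw [hs2]
  have hml : 0 ≤ (H₁ : ℝ) * lN := by positivity
  rcases le_or_gt 1 (c + 2 * s) with hbig | hsmall
  · -- trivial bound
    have h1 : SR N H₁ ≤ H₁ * (1 + lN) := by
      rw [sr_eq, hlNd]
      calc ∑ n ∈ Icc 1 N, (1 / (n : ℝ)) * GG ph mo H₁ n ≤ ∑ n ∈ Icc 1 N, (1 / (n : ℝ)) * H₁ :=
            sum_le_sum fun n _ => mul_le_mul_of_nonneg_left
              (GG_le ph mo norm_ph norm_mo_le H₁ n) (by positivity)
        _ = H₁ * ∑ n ∈ Icc 1 N, (1 / (n : ℝ)) := by rw [← sum_mul, mul_comm]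
        _ ≤ _ := mul_le_mul_of_nonneg_left (sum_inv_le_log N) hH₁r
    have h2 : 1 ≤ e * lN := by
      rw [div_le_iff₀ he0] at hlog
      linarith
    have h3 : (H₁ : ℝ) * 1 ≤ H₁ * (e * lN) := mul_le_mul_of_nonneg_left h2 hH₁r
    have h4 : 1 * (H₁ * lN) ≤ (c + 2 * s + (ε - e)) * (H₁ * lN) :=
      mul_le_mul_of_nonneg_right (by linarith) hml
    nlinarith
  · have hc1 : c ≤ 1 := by linarith
    have hs12 : s < 1 / 2 := by linarith
    obtain ⟨i, hi⟩ : ∃ i : ℕ, i = ⌊s / (e / 8)⌋₊ := ⟨_, rfl⟩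
    have hi1 : (i : ℝ) ≤ s / (e / 8) := by rw [hi]; exact Nat.floor_le (by positivity)
    have hi2 : s / (e / 8) < i + 1 := by rw [hi]; exact Nat.lt_floor_add_one _
    have hiM : i + 1 ≤ M := by
      rw [hM, hi]
      have : s / (e / 8) ≤ 4 / e := by
        rw [div_div_eq_mul_div, div_le_div_iff₀ he0 he0]
        nlinarith
      have := Nat.floor_le_floor this
      omega
    have hsum : H₀ i ≤ ∑ i ∈ range M, H₀ i :=
      single_le_sum (f := fun i => H₀ i) (fun _ _ => Nat.zero_le _) (mem_range.mpr (by omega))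
    have h1 := hH₀ i hiM N H₁ (by omega) hN β c hc hc1
    rw [← hX, ← hlNd] at h1
    obtain ⟨g, hg⟩ : ∃ g : ℝ, g = ((i : ℝ) + 1) * (e / 8) := ⟨_, rfl⟩
    rw [← hg] at h1
    have hg0 : 0 < g := by rw [hg]; positivity
    have hgs : s ≤ g := by
      rw [div_lt_iff₀ (by positivity)] at hi2
      rw [hg]; exact hi2.le
    have hgs' : g ≤ s + e / 8 := by
      rw [le_div_iff₀ (by positivity)] at hi1
      rw [hg]; linarith
    have h2 : (1 + e / 8) * (Real.pi / 4 * H / g) * X ≤ (s + e / 16) * lN := by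
      have e1 : (1 + e / 8) * (Real.pi / 4 * H / g) * X = (1 + e / 8) * (s ^ 2 * lN) / g := by
        have : Real.pi / 4 * H * X = s ^ 2 * lN := by linarith
        rw [← this]; ring
      rw [e1, div_le_iff₀ hg0]
      have h3 : s ^ 2 * lN ≤ s * g * lN := by
        apply mul_le_mul_of_nonneg_right _ hlN.le
        nlinarith
      have h4 : (1 + e / 8) * (s ^ 2 * lN) ≤ (1 + e / 8) * (s * g * lN) :=
        mul_le_mul_of_nonneg_left h3 (by positivity)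
      have h5 : (1 + e / 8) * (s * g * lN) ≤ (s + e / 16) * lN * g := by
        have h6 : e / 8 * s ≤ e / 16 := by nlinarith
        have h7 : 0 ≤ g * lN := by positivity
        nlinarith [mul_le_mul_of_nonneg_right h6 h7]
      linarith
    have h3 : (c + g + e / 8) * lN + (1 + e / 8) * (Real.pi / 4 * H / g) * X ≤
        (c + 2 * s + ε) * lN := by
      have h4 : (c + g + e / 8) * lN ≤ (c + s + e / 4) * lN :=
        mul_le_mul_of_nonneg_right (by linarith) hlN.le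
      have h5 : (c + s + e / 4 + (s + e / 16)) * lN ≤ (c + 2 * s + ε) * lN :=
        mul_le_mul_of_nonneg_right (by linarith) hlN.le
      linarith
    have h4 := mul_le_mul_of_nonneg_right h3 hH₁r
    linarith

end Pool.Agent.XS
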