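import Mathlib
import Pool.Agent.Lib.XS.T1e

/-!
# Linear phases: the converse, and the equivalence
-/

set_option autoImplicit false
open Finset MeasureTheory

namespace Pool.Agent.XS

open Pool.Agent.Lib.MP_663568_nt Pool.Agent.Lib.MP_663568_nt.Katai
  Pool.Agent.Lib.MP_663568_nt.Nul Pool.Agent.Lib.MP_663568_nt.H6 Pool.Agent.Lib.MP_663568_dch

lemma ee_pow (θ : ℝ) (k : ℕ) : ee θ ^ k = ee (k * θ) := by
  induction k with
  | zero => simp [ee]
  | succ k ih =>
    rw [pow_succ, ih, ← ee_add]; congr 1; push_cast; ring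

/-- orthogonality -/
lemma orth (H : ℕ) (hH : 1 ≤ H) (h h' : ℕ) (hh : h ∈ Icc 1 H) (hh' : h' ∈ Icc 1 H) :
    ∑ j ∈ range H, ee ((j : ℝ) / H * h) * (starRingEnd ℂ) (ee ((j : ℝ) / H * h')) =
      if h = h' then (H : ℂ) else 0 := by
  have hHr : (0 : ℝ) < H := by exact_mod_cast hH
  obtain ⟨θ, hθ⟩ : ∃ θ : ℝ, θ = ((h : ℝ) - h') / H := ⟨_, rfl⟩
  have e1 : ∀ j ∈ range H, ee ((j : ℝ) / H * h) * (starRingEnd ℂ) (ee ((j : ℝ) / H * h')) =
      ee θ ^ j := by
    intro j _
    rw [conj_ee, ← ee_add]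
    have e2 : (j : ℝ) / H * h + -((j : ℝ) / H * h') = j * θ := by rw [hθ]; field_simp; ring
    rw [e2, ee_pow]
  rw [sum_congr rfl e1]
  split_ifs with hc
  · have : θ = 0 := by rw [hθ, hc]; simp
    rw [this]
    have : ee 0 = 1 := by simp [ee]
    rw [this]
    simp
  · have hne : ee θ ≠ 1 := by
      intro hcon
      have h1 := nd_le_norm_one_sub_ee θ
      rw [hcon, sub_self, norm_zero] at h1
      have h2 : nd θ = 0 := le_antisymm (by linarith) (nd_nonneg _)
      obtain ⟨b, hb⟩ := nd_exists θ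
      rw [h2] at hb
      have h3 : θ = b := by
        have := abs_eq_zero.mp hb.symm
        linarith
      rw [hθ, div_eq_iff hHr.ne'] at h3
      have h4 : (h : ℤ) - h' = b * H := by exact_mod_cast h3
      rw [mem_Icc] at hh hh'
      have h5 : |(h : ℤ) - h'| < H := by rw [abs_lt]; omega
      have h6 : b = 0 := by
        by_contra hb0
        have h7 : 1 ≤ |b| := Int.one_le_abs hb0
        rw [h4, abs_mul, abs_of_nonneg (by positivity : (0 : ℤ) ≤ (H : ℤ))] at h5
        nlinarith [abs_nonneg b]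
      rw [h6, zero_mul] at h4
      apply hc
      omega
    rw [geom_sum_eq hne]
    have e4 : ee θ ^ H = 1 := by
      rw [ee_pow]
      have e5 : (H : ℝ) * θ = (((h : ℤ) - h' : ℤ) : ℝ) := by
        rw [hθ]; push_cast; field_simp
      rw [e5, ee_int]
    rw [e4, sub_self, zero_div]

/-- Parseval's identity on a block -/
lemma parseval (x : ℕ → ℂ) (H : ℕ) (hH : 1 ≤ H) :
    ∑ j ∈ range H, ‖∑ h ∈ Icc 1 H, x h * ee ((j : ℝ) / H * h)‖ ^ 2 =
      H * ∑ h ∈ Icc 1 H, ‖x h‖ ^ 2 := by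
  have hC : ((∑ j ∈ range H, ‖∑ h ∈ Icc 1 H, x h * ee ((j : ℝ) / H * h)‖ ^ 2 : ℝ) : ℂ) =
      ((H * ∑ h ∈ Icc 1 H, ‖x h‖ ^ 2 : ℝ) : ℂ) := by
    push_cast
    calc ∑ j ∈ range H, ((‖∑ h ∈ Icc 1 H, x h * ee ((j : ℝ) / H * h)‖ : ℝ) : ℂ) ^ 2
        = ∑ j ∈ range H, ∑ h ∈ Icc 1 H, ∑ h' ∈ Icc 1 H, x h * (starRingEnd ℂ) (x h') *
          (ee ((j : ℝ) / H * h) * (starRingEnd ℂ) (ee ((j : ℝ) / H * h'))) := by
          refine sum_congr rfl fun j _ => ?_
          rw [← Complex.mul_conj', map_sum, sum_mul_sum]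
          refine sum_congr rfl fun h _ => sum_congr rfl fun h' _ => ?_
          rw [map_mul]; ring
      _ = ∑ h ∈ Icc 1 H, ∑ h' ∈ Icc 1 H, x h * (starRingEnd ℂ) (x h') *
          ∑ j ∈ range H, ee ((j : ℝ) / H * h) * (starRingEnd ℂ) (ee ((j : ℝ) / H * h')) := by
          rw [sum_comm]
          refine sum_congr rfl fun h _ => ?_
          rw [sum_comm]
          exact sum_congr rfl fun h' _ => (mul_sum _ _ _).symm
      _ = ∑ h ∈ Icc 1 H, x h * (starRingEnd ℂ) (x h) * H := by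
          refine sum_congr rfl fun h hh => ?_
          rw [sum_congr rfl fun h' hh' => by rw [orth H hH h h' hh hh']]
          rw [sum_eq_single h (fun h' _ hne => by rw [if_neg (Ne.symm hne), mul_zero])
            (fun hcon => absurd hh hcon), if_pos rfl]
      _ = (H : ℂ) * ∑ h ∈ Icc 1 H, ((‖x h‖ : ℝ) : ℂ) ^ 2 := by
          rw [mul_sum]
          refine sum_congr rfl fun h _ => ?_
          rw [Complex.mul_conj']; ring
  exact_mod_cast hC

/-- **The converse inequality.** -/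
theorem converse (c : ℝ) (hc : 0 < c) (H : ℕ) (hH : 1 ≤ H) (N : ℕ) :
    ∑ j ∈ range H, Exc ((j : ℝ) / H) c H N ≤ SR N H / (c ^ 3 * H) := by
  have hHr : (0 : ℝ) < H := by exact_mod_cast hH
  have h1 : ∀ n, ∑ j ∈ range H, bad mo ((j : ℝ) / H) c H n ≤ GG ph mo H n / (c ^ 3 * H) := by
    intro n
    have hG0 : 0 ≤ GG ph mo H n := GG_nonneg _ _ _ _
    by_cases hb : ∃ j ∈ range H, c * H < ws (ph ((j : ℝ) / H)) mo n H
    · obtain ⟨j, hj, hjb⟩ := hb
      have h2 : c * H < GG ph mo H n := lt_of_lt_of_le hjb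
        (le_GG ph mo norm_ph norm_mo_le H n ((j : ℝ) / H))
      have h3 : ∀ j ∈ range H, bad mo ((j : ℝ) / H) c H n * (c * H) ^ 2 ≤
          (ws (ph ((j : ℝ) / H)) mo n H) ^ 2 := by
        intro j _
        unfold bad
        split_ifs with h4
        · rw [one_mul]
          exact pow_le_pow_left₀ (by positivity) h4.le 2
        · rw [zero_mul]; positivity
      have h4 : ∑ j ∈ range H, (ws (ph ((j : ℝ) / H)) mo n H) ^ 2 ≤ (H : ℝ) ^ 2 := by
        have h5 := parseval (fun h => mo (n + h)) H hH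
        have h6 : ∑ h ∈ Icc 1 H, ‖mo (n + h)‖ ^ 2 ≤ H := by
          calc _ ≤ ∑ h ∈ Icc 1 H, (1 : ℝ) :=
                sum_le_sum fun h _ => pow_le_one₀ (norm_nonneg _) (norm_mo_le _)
            _ = H := by simp
        have h7 : ∀ j ∈ range H, (ws (ph ((j : ℝ) / H)) mo n H) ^ 2 =
            ‖∑ h ∈ Icc 1 H, mo (n + h) * ee ((j : ℝ) / H * h)‖ ^ 2 := by
          intro j _
          rw [ws_ph_mo]
          congr 2
          refine sum_congr rfl fun h _ => ?_
          rw [mo, ee]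
          congr 2
          push_cast
          ring
        rw [sum_congr rfl h7, h5]
        nlinarith
      have h5 : (∑ j ∈ range H, bad mo ((j : ℝ) / H) c H n) * (c * H) ^ 2 ≤ (H : ℝ) ^ 2 := by
        rw [sum_mul]
        exact (sum_le_sum h3).trans h4
      have h6 : (∑ j ∈ range H, bad mo ((j : ℝ) / H) c H n) * c ^ 2 ≤ 1 := by
        have : 0 < (H : ℝ) ^ 2 := by positivity
        nlinarith
      rw [le_div_iff₀ (by positivity)]
      calc (∑ j ∈ range H, bad mo ((j : ℝ) / H) c H n) * (c ^ 3 * H) =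
          ((∑ j ∈ range H, bad mo ((j : ℝ) / H) c H n) * c ^ 2) * (c * H) := by ring
        _ ≤ 1 * (c * H) := mul_le_mul_of_nonneg_right h6 (by positivity)
        _ ≤ _ := by linarith
    · push Not at hb
      refine le_trans (le_of_eq ?_) (by positivity : 0 ≤ GG ph mo H n / (c ^ 3 * H))
      refine sum_eq_zero fun j hj => ?_
      unfold bad
      rw [if_neg (not_lt.mpr (hb j hj))]
  have e1 : ∑ j ∈ range H, Exc ((j : ℝ) / H) c H N =
      ∑ n ∈ Icc 1 N, (1 / (n : ℝ)) * ∑ j ∈ range H, bad mo ((j : ℝ) / H) c H n := by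
    simp only [exc_eq, SB, mul_sum]
    rw [sum_comm]
  rw [e1, sr_eq, sum_div]
  refine sum_le_sum fun n _ => ?_
  rw [mul_div_assoc]
  exact mul_le_mul_of_nonneg_left (h1 n) (by positivity)

/-- **Fourier uniformity on short intervals and the exceptional set of one frequency.** -/
theorem equivalence : (∀ ε : ℝ, 0 < ε → ∃ H₀ : ℕ, ∀ N H : ℕ, H₀ ≤ H → H ≤ N →
      SR N H ≤ ε * H * Real.log N) ↔
    ∀ c ε : ℝ, 0 < c → 0 < ε → ∃ H N₀ : ℕ, 1 ≤ H ∧ ∀ N : ℕ, N₀ ≤ N → ∃ β : ℝ,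
      H * Exc β c H N ≤ ε * Real.log N := by
  constructor
  · intro h c ε hc hε
    obtain ⟨H₀, h⟩ := h (c ^ 3 * ε) (by positivity)
    refine ⟨H₀ + 1, H₀ + 1, by omega, fun N hN => ?_⟩
    obtain ⟨H, hH⟩ : ∃ H : ℕ, H = H₀ + 1 := ⟨_, rfl⟩
    rw [← hH] at hN ⊢
    have hH1 : 1 ≤ H := by omega
    have hHr : (0 : ℝ) < H := by exact_mod_cast hH1
    have h1 := h N H (by omega) hN
    have h2 := converse c hc H hH1 N
    have h3 : ∑ j ∈ range H, Exc ((j : ℝ) / H) c H N ≤ ε * Real.log N := by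
      refine h2.trans ?_
      rw [div_le_iff₀ (by positivity)]
      linarith
    by_contra hcon
    push Not at hcon
    have h4 : ∑ j ∈ range H, (ε * Real.log N) / H < ∑ j ∈ range H, Exc ((j : ℝ) / H) c H N := by
      apply sum_lt_sum_of_nonempty (nonempty_range_iff.mpr (by omega))
      intro j _
      rw [div_lt_iff₀ hHr]
      have := hcon ((j : ℝ) / H)
      linarith
    rw [sum_const, card_range, nsmul_eq_mul, mul_div_cancel₀ _ hHr.ne'] at h4
    linarith
  · intro h ε hε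
    obtain ⟨H, N₀, hH, h⟩ := h (ε / 3) ((ε / 3) ^ 2 / Real.pi) (by positivity) (by positivity)
    obtain ⟨H₀, hine⟩ := inequality (ε / 3) (by positivity) H hH
    refine ⟨H₀ + N₀ + 2, fun N H₁ hH₁ hN => ?_⟩
    obtain ⟨β, hβ⟩ := h N (by omega)
    have h1 := hine N H₁ (by omega) hN β (ε / 3) (by positivity)
    have hN2 : (2 : ℝ) ≤ N := by exact_mod_cast (by omega : 2 ≤ N)
    have hlN : 0 < Real.log N := Real.log_pos (by linarith)
    have h2 : √(Real.pi * H * (Exc β (ε / 3) H N / Real.log N)) ≤ ε / 3 := by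
      rw [Real.sqrt_le_left (by positivity)]
      have h3 : Real.pi * (H * Exc β (ε / 3) H N) ≤
          Real.pi * ((ε / 3) ^ 2 / Real.pi * Real.log N) :=
        mul_le_mul_of_nonneg_left hβ Real.pi_pos.le
      have h4 : Real.pi * ((ε / 3) ^ 2 / Real.pi * Real.log N) = (ε / 3) ^ 2 * Real.log N := by
        field_simp
      have h5 : Real.pi * H * (Exc β (ε / 3) H N / Real.log N) =
          Real.pi * (H * Exc β (ε / 3) H N) / Real.log N := by ring
      rw [h5, div_le_iff₀ hlN]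
      linarith
    refine h1.trans ?_
    have h3 : 0 ≤ (H₁ : ℝ) := Nat.cast_nonneg _
    apply mul_le_mul_of_nonneg_right _ hlN.le
    apply mul_le_mul_of_nonneg_right _ h3
    linarith

end Pool.Agent.XS
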